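import Pool.Agent.D0H96.UR.Ini

/-!
Project UR: the number of the stages of a chain at which the height of a site is small.
-/

set_option autoImplicit false

open Filter Topology MeasureTheory Set

namespace Pool.Agent.D0H96.UR

open Chain

theorem sact_mono (s : Slot) {η η' : Cfg} (h : η ≤ η') : sact s η ≤ sact s η' := by
  unfold sact
  have h1 : bl s.2 (η s.1) ≤ bl s.2 (η' s.1) := bl_mono (h s.1)
  exact add_le_add (add_le_add h (Finsupp.single_mono h1)) (Finsupp.single_mono h1)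

theorem mono_inv {n : ℕ} (x : Fin (n + 1) → Cfg) (hx : x ∈ {x : Fin (n + 1) → Cfg | Monotone x}) (s : Slot)
    (_ : s ∈ (TC (Fin (n + 1))).mv x) : (TC (Fin (n + 1))).act s x ∈ {x : Fin (n + 1) → Cfg | Monotone x} :=
  fun _ _ h => sact_mono s (hx h)

/-- The index `k + m`. -/
def nx {n : ℕ} (m : ℕ) (k : Fin (n + 1)) : Fin (n + 1) := ⟨min (k + m) n, by omega⟩

theorem count_le {n : ℕ} (m : ℕ) (z : ℤ) (s : ℝ) (y : Fin (n + 1) → Cfg) (hy : Monotone y) :
    ∑ k, ind {η : Cfg | |(η z : ℝ)| ≤ s} (y k) ≤ m + (n + 1) *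
      ∑ k ∈ Finset.univ.filter (fun k : Fin (n + 1) => (k : ℕ) + m ≤ n),
        ind {y : Fin (n + 1) → Cfg | ((y (nx m k) z : ℝ) - (y k z : ℝ)) ≤ 2 * s} y := by
  classical
  obtain ⟨A, hA⟩ : ∃ A : Finset (Fin (n + 1)), A = Finset.univ.filter fun k => |(y k z : ℝ)| ≤ s := ⟨_, rfl⟩
  have e : ∑ k, ind {η : Cfg | |(η z : ℝ)| ≤ s} (y k) = A.card := by
    rw [hA, Finset.card_filter]
    push_cast
    refine Finset.sum_congr rfl fun k _ => ?_
    by_cases h : |(y k z : ℝ)| ≤ s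
    · rw [if_pos h, ind_of_mem (E := {η : Cfg | |(η z : ℝ)| ≤ s}) h]
    · rw [if_neg h, ind_of_notMem (E := {η : Cfg | |(η z : ℝ)| ≤ s}) h]
  rw [e]
  have hn : (0 : ℝ) ≤ n + 1 := by positivity
  by_cases hm : A.card ≤ m
  · have h1 : (A.card : ℝ) ≤ m := by exact_mod_cast hm
    have h2 : 0 ≤ (n + 1 : ℝ) * ∑ k ∈ Finset.univ.filter (fun k : Fin (n + 1) => (k : ℕ) + m ≤ n),
        ind {y : Fin (n + 1) → Cfg | ((y (nx m k) z : ℝ) - (y k z : ℝ)) ≤ 2 * s} y :=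
      mul_nonneg hn (Finset.sum_nonneg fun _ _ => ind_nonneg _ _)
    linarith
  · push Not at hm
    have hne : A.Nonempty := Finset.card_pos.1 (by omega)
    have h1 : A ⊆ Finset.Icc (A.min' hne) (A.max' hne) := fun i hi =>
      Finset.mem_Icc.2 ⟨A.min'_le i hi, A.le_max' i hi⟩
    have h2 := Finset.card_le_card h1
    rw [Fin.card_Icc] at h2
    have h3 : (A.min' hne : ℕ) + m ≤ (A.max' hne : ℕ) := by omega
    have h4 : (A.max' hne : ℕ) ≤ n := by have := (A.max' hne).isLt; omega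
    have hAm : ∀ k, k ∈ A → |(y k z : ℝ)| ≤ s := fun k hk => by
      rw [hA, Finset.mem_filter] at hk
      exact hk.2
    have hk := hAm _ (A.min'_mem hne)
    have hl := hAm _ (A.max'_mem hne)
    have h5 : nx m (A.min' hne) ≤ A.max' hne := by
      show min ((A.min' hne : ℕ) + m) n ≤ (A.max' hne : ℕ)
      omega
    have h6 : ((y (nx m (A.min' hne)) z : ℤ) : ℝ) ≤ (y (A.max' hne) z : ℝ) := by exact_mod_cast hy h5 z
    have h7 : ((y (nx m (A.min' hne)) z : ℝ) - (y (A.min' hne) z : ℝ)) ≤ 2 * s := by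
      have h8 := (abs_le.1 hk).1
      have h9 := (abs_le.1 hl).2
      linarith
    have h8 : (1 : ℝ) ≤ ∑ k ∈ Finset.univ.filter (fun k : Fin (n + 1) => (k : ℕ) + m ≤ n),
        ind {y : Fin (n + 1) → Cfg | ((y (nx m k) z : ℝ) - (y k z : ℝ)) ≤ 2 * s} y := by
      have h9 := Finset.single_le_sum (f := fun k : Fin (n + 1) =>
        ind {y : Fin (n + 1) → Cfg | ((y (nx m k) z : ℝ) - (y k z : ℝ)) ≤ 2 * s} y) (fun k _ => ind_nonneg _ _)
        (Finset.mem_filter.2 ⟨Finset.mem_univ (A.min' hne), by omega⟩ :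
          A.min' hne ∈ Finset.univ.filter (fun k : Fin (n + 1) => (k : ℕ) + m ≤ n))
      refine le_trans (le_of_eq ?_) h9
      exact (ind_of_mem (E := {y' : Fin (n + 1) → Cfg |
        ((y' (nx m (A.min' hne)) z : ℝ) - (y' (A.min' hne) z : ℝ)) ≤ 2 * s}) h7).symm
    have h9 : (A.card : ℝ) ≤ n + 1 := by
      have := Finset.card_le_univ A
      rw [Fintype.card_fin] at this
      exact_mod_cast this
    have h10 : (0 : ℝ) ≤ m := Nat.cast_nonneg m
    nlinarith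

/-- The expected number of the stages of a chain at which the height of the site `z` is at most `s`. -/
theorem chain_bound (hMP : S_MP) (hEX : S_EX) (hEXPB : S_EXPB) {n R : ℕ} (emb : Fin n ↪ ℤ) (S₂ : Finset ℤ)
    (π : Equiv.Perm (Fin n)) (hR : ∀ i, emb i ∈ Finset.Icc (-(R : ℤ)) R) (hS₂ : ∀ i, emb i ∉ S₂) {T l : ℝ}
    (hT : 0 ≤ T) (z : ℤ) (α : ℝ → ℤ → ℝ) (h1 : ∀ k, ContinuousOn (fun t => α t k) (Icc 0 T))
    (h2 : ∀ k, ∀ t ∈ Ioo 0 T, ∃ d, HasDerivAt (fun t => α t k) d t ∧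
      d ≤ 1 - Real.exp (-(α t (k - 1) + α t (k + 1))))
    (h3 : ∀ k, α 0 k ≤ if k = 0 then l else 0) (hl : 0 ≤ l) {c : ℝ} (hc : 0 ≤ c) (ha : ∀ i, c ≤ α T (emb i - z))
    (m : ℕ) {s : ℝ} (hs : 0 ≤ s) :
    ∑ k ∈ Finset.range (n + 1), UC.P (ind {η : Cfg | |(η z : ℝ)| ≤ s}) T (ini R (stg emb S₂ π k)) ≤
      m + (n + 1) * ((n + 1) * Real.exp (l * (2 * s) - 2 * (m * c))) := by
  rw [Finset.sum_range]
  have hu : (TC (Fin (n + 1))).Sol (fun y => ∑ k, ind {η : Cfg | |(η z : ℝ)| ≤ s} (y k))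
      (fun t y => ∑ k, UC.P (ind {η : Cfg | |(η z : ℝ)| ≤ s}) t (y k)) :=
    Sol.sum Finset.univ fun k _ => (P_sol hEX UC (ind_bdd _)).map (fun f x => gen_TC_eval k f x)
  have hv : (TC (Fin (n + 1))).Sol (fun y => (m : ℝ) + (n + 1) *
      ∑ k ∈ Finset.univ.filter (fun k : Fin (n + 1) => (k : ℕ) + m ≤ n),
        ind {y : Fin (n + 1) → Cfg | ((y (nx m k) z : ℝ) - (y k z : ℝ)) ≤ 2 * s} y)
      (fun t y => (m : ℝ) + (n + 1) * ∑ k ∈ Finset.univ.filter (fun k : Fin (n + 1) => (k : ℕ) + m ≤ n),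
        (TC (Fin (n + 1))).P (ind {y : Fin (n + 1) → Cfg | ((y (nx m k) z : ℝ) - (y k z : ℝ)) ≤ 2 * s}) t y) :=
    (Sol.const (m : ℝ)).add ((Sol.sum _ fun k _ => P_sol hEX _ (ind_bdd _)).smul _)
  have hx : (fun k : Fin (n + 1) => ini R (stg emb S₂ π k)) ∈ {x : Fin (n + 1) → Cfg | Monotone x} :=
    fun i j h => ini_mono R (stg_mono emb S₂ π h)
  have key := hu.mono hMP hv (I := {x : Fin (n + 1) → Cfg | Monotone x}) mono_inv
    (fun y hy => count_le m z s y hy) hx hT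
  refine key.trans ?_
  have hn : (0 : ℝ) ≤ n + 1 := by positivity
  refine add_le_add le_rfl (mul_le_mul_of_nonneg_left ?_ hn)
  have hb : ∀ k ∈ Finset.univ.filter (fun k : Fin (n + 1) => (k : ℕ) + m ≤ n),
      (TC (Fin (n + 1))).P (ind {y : Fin (n + 1) → Cfg | ((y (nx m k) z : ℝ) - (y k z : ℝ)) ≤ 2 * s}) T
        (fun k : Fin (n + 1) => ini R (stg emb S₂ π k)) ≤ Real.exp (l * (2 * s) - 2 * (m * c)) := by
    intro k hk
    rw [Finset.mem_filter] at hk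
    have e1 : ((nx m k : Fin (n + 1)) : ℕ) = (k : ℕ) + m := by
      show min ((k : ℕ) + m) n = _
      omega
    have hle : k ≤ nx m k := by
      show (k : ℕ) ≤ ((nx m k : Fin (n + 1)) : ℕ)
      omega
    have h4 := hEXPB (Fin (n + 1)) k (nx m k) T l (2 * s) z α hT h1 h2 h3 hl (by linarith)
      (fun k : Fin (n + 1) => ini R (stg emb S₂ π k)) (hx hle)
    refine h4.trans (Real.exp_le_exp.2 (sub_le_sub_left ?_ _))
    have h5 := Lw_stg emb S₂ π R hR hS₂ (fun k => α T (k - z)) hc ha (k := (k : ℕ)) (m := m) hk.2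
    rw [← e1] at h5
    exact h5
  refine (Finset.sum_le_sum hb).trans ?_
  rw [Finset.sum_const, nsmul_eq_mul]
  refine mul_le_mul_of_nonneg_right ?_ (Real.exp_pos _).le
  have h6 := Finset.card_le_univ (Finset.univ.filter (fun k : Fin (n + 1) => (k : ℕ) + m ≤ n))
  rw [Fintype.card_fin] at h6
  exact_mod_cast h6

end Pool.Agent.D0H96.UR
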