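import Pool.Agent.D0H96.UR.Ant

/-!
Project UR: anticoncentration. The height of a site is at most `s₀ e^(2T) / T^(1/4)` in absolute value with small
probability.
-/

set_option autoImplicit false

open Filter Topology MeasureTheory Set

namespace Pool.Agent.D0H96.UR

open Chain

theorem sum_split (A G : Finset ℤ) (hG : G ⊆ A) (u : Finset ℤ → ℝ) :
    ∑ S ∈ A.powerset, u S = ∑ S₂ ∈ (A \ G).powerset, ∑ S₁ ∈ G.powerset, u (S₁ ∪ S₂) := by
  rw [← Finset.sum_product']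
  refine Finset.sum_nbij' (fun S => (S \ G, S ∩ G)) (fun p => p.2 ∪ p.1) ?_ ?_ ?_ ?_ ?_
  · intro S hS
    rw [Finset.mem_powerset] at hS
    rw [Finset.mem_product, Finset.mem_powerset, Finset.mem_powerset]
    exact ⟨Finset.sdiff_subset_sdiff hS le_rfl, Finset.inter_subset_right⟩
  · intro p hp
    rw [Finset.mem_product, Finset.mem_powerset, Finset.mem_powerset] at hp
    rw [Finset.mem_powerset]
    exact Finset.union_subset (hp.2.trans hG) (hp.1.trans Finset.sdiff_subset)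
  · intro S _
    show S ∩ G ∪ S \ G = S
    ext x
    simp only [Finset.mem_union, Finset.mem_inter, Finset.mem_sdiff]
    tauto
  · intro p hp
    rw [Finset.mem_product, Finset.mem_powerset, Finset.mem_powerset] at hp
    refine Prod.ext ?_ ?_
    · show (p.2 ∪ p.1) \ G = p.1
      ext x
      simp only [Finset.mem_union, Finset.mem_sdiff]
      constructor
      · rintro ⟨h | h, h'⟩
        · exact (h' (hp.2 h)).elim
        · exact h
      · intro h
        exact ⟨Or.inr h, (Finset.mem_sdiff.1 (hp.1 h)).2⟩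
    · show (p.2 ∪ p.1) ∩ G = p.2
      ext x
      simp only [Finset.mem_union, Finset.mem_inter]
      constructor
      · rintro ⟨h | h, h'⟩
        · exact h
        · exact ((Finset.mem_sdiff.1 (hp.1 h)).2 h').elim
      · intro h
        exact ⟨Or.inl h, hp.2 h⟩
  · intro S _
    show u S = u (S ∩ G ∪ S \ G)
    congr 1
    ext x
    simp only [Finset.mem_union, Finset.mem_inter, Finset.mem_sdiff]
    tauto

theorem sum_emb {n : ℕ} (emb : Fin n ↪ ℤ) (u : Finset ℤ → ℝ) :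
    ∑ S₁ ∈ (Finset.univ.map emb).powerset, u S₁ = ∑ F : Finset (Fin n), u (F.map emb) := by
  refine (Finset.sum_nbij (fun F => F.map emb) ?_ ?_ ?_ ?_).symm
  · intro F _
    rw [Finset.mem_powerset]
    exact Finset.map_subset_map.2 (Finset.subset_univ _)
  · intro F _ F' _ h
    exact Finset.map_injective emb h
  · intro S hS
    rw [Finset.mem_coe, Finset.mem_powerset] at hS
    refine ⟨Finset.univ.filter fun i => emb i ∈ S, Finset.mem_coe.2 (Finset.mem_univ _), ?_⟩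
    ext x
    rw [Finset.mem_map]
    constructor
    · rintro ⟨i, hi, rfl⟩
      exact (Finset.mem_filter.1 hi).2
    · intro hx
      obtain ⟨i, _, rfl⟩ := Finset.mem_map.1 (hS hx)
      exact ⟨i, Finset.mem_filter.2 ⟨Finset.mem_univ _, hx⟩, rfl⟩
  · intro F _
    rfl

/-- The mean over all coins from the means over the coins of the sites `emb i`. -/
theorem pr_le (R : ℕ) (T : ℝ) (E : Set Cfg) {n : ℕ} (emb : Fin n ↪ ℤ) (hR : ∀ i, emb i ∈ Finset.Icc (-(R : ℤ)) R)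
    {B : ℝ} (h : ∀ S₂ : Finset ℤ, (∀ i, emb i ∉ S₂) →
      (∑ F : Finset (Fin n), UC.P (ind E) T (ini R (F.map emb ∪ S₂))) / 2 ^ n ≤ B) : pr R T E ≤ B := by
  unfold pr
  have hG : Finset.univ.map emb ⊆ Finset.Icc (-(R : ℤ)) R := by
    intro x hx
    obtain ⟨i, _, rfl⟩ := Finset.mem_map.1 hx
    exact hR i
  rw [sum_split _ _ hG, div_le_iff₀ (by positivity)]
  have h1 : ∀ S₂ ∈ (Finset.Icc (-(R : ℤ)) R \ Finset.univ.map emb).powerset,
      ∑ S₁ ∈ (Finset.univ.map emb).powerset, UC.P (ind E) T (ini R (S₁ ∪ S₂)) ≤ B * 2 ^ n := by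
    intro S₂ hS₂
    rw [sum_emb emb fun S₁ => UC.P (ind E) T (ini R (S₁ ∪ S₂))]
    rw [Finset.mem_powerset] at hS₂
    have := h S₂ fun i hi => (Finset.mem_sdiff.1 (hS₂ hi)).2 (Finset.mem_map_of_mem _ (Finset.mem_univ i))
    rwa [div_le_iff₀ (by positivity)] at this
  refine (Finset.sum_le_sum h1).trans (le_of_eq ?_)
  rw [Finset.sum_const, Finset.card_powerset, Finset.card_sdiff_of_subset hG, Finset.card_map, Finset.card_univ,
    Fintype.card_fin, Int.card_Icc, nsmul_eq_mul]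
  have hn : n ≤ 2 * R + 1 := by
    have := Finset.card_le_card hG
    rw [Finset.card_map, Finset.card_univ, Fintype.card_fin, Int.card_Icc] at this
    omega
  have e : ((R : ℤ) + 1 - -(R : ℤ)).toNat = 2 * R + 1 := by omega
  rw [e]
  push_cast
  rw [mul_comm B (2 ^ n), ← mul_assoc, ← pow_add, Nat.sub_add_cancel hn]
  ring

/-- There are many good sites. -/
theorem good_sites (hHM : S_HM) {C : ℝ} (hC : 0 < C) (hCk : ∀ t : ℝ, 0 ≤ t → ∀ k, hk t k ≤ C / √(1 + t)) {T : ℝ}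
    (hT : 1 ≤ T) (z : ℤ) : ∃ (n : ℕ) (emb : Fin n ↪ ℤ), (∀ i, |((emb i : ℤ) : ℝ) - z| ≤ 3 * √T) ∧
      (∀ i, 1 / 28 / √T ≤ hk T (emb i - z)) ∧ √T / (4 * C) ≤ n ∧ (n : ℝ) + 1 ≤ 8 * √T := by
  have hT1 : 1 ≤ √T := by rw [Real.one_le_sqrt]; exact hT
  have hTs : √T * √T = T := Real.mul_self_sqrt (by linarith)
  obtain ⟨m, hm⟩ : ∃ m, m = ⌈2 * √T⌉₊ := ⟨_, rfl⟩
  have hm1 : 2 * √T ≤ m := by rw [hm]; exact Nat.le_ceil _
  have hm2 : (m : ℝ) ≤ 3 * √T := by
    have := Nat.ceil_lt_add_one (show 0 ≤ 2 * √T by positivity)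
    rw [← hm] at this
    linarith
  have hm0 : 0 < m := by
    have : (0 : ℝ) < m := by linarith
    exact_mod_cast this
  have hmass := (hHM T (by linarith)).2.2 m hm0
  obtain ⟨G, hG⟩ : ∃ G : Finset ℤ, G = (Finset.Icc (-(m : ℤ)) m).filter fun k => 1 / 28 / √T ≤ hk T k := ⟨_, rfl⟩
  have hGm : ∀ k ∈ G, k ∈ Finset.Icc (-(m : ℤ)) m ∧ 1 / 28 / √T ≤ hk T k := by
    intro k hk
    rw [hG, Finset.mem_filter] at hk
    exact hk
  have hcardI : ((Finset.Icc (-(m : ℤ)) m).card : ℝ) = 2 * m + 1 := by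
    rw [Int.card_Icc]
    have : ((m : ℤ) + 1 - -(m : ℤ)).toNat = 2 * m + 1 := by omega
    rw [this]
    push_cast
    ring
  have hGc : (G.card : ℝ) ≤ 2 * m + 1 := by
    rw [← hcardI, hG]
    exact_mod_cast Finset.card_filter_le _ _
  have hsum : ∑ k ∈ Finset.Icc (-(m : ℤ)) m, hk T k ≤ G.card * (C / √T) + (2 * m + 1) * (1 / 28 / √T) := by
    rw [← Finset.sum_filter_add_sum_filter_not _ fun k => 1 / 28 / √T ≤ hk T k]
    refine add_le_add ?_ ?_
    · rw [← hG]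
      refine (Finset.sum_le_sum fun k _ => (hCk T (by linarith) k).trans
        (div_le_div_of_nonneg_left hC.le (by linarith) (Real.sqrt_le_sqrt (by linarith)))).trans (le_of_eq ?_)
      rw [Finset.sum_const, nsmul_eq_mul]
    · refine (Finset.sum_le_sum fun k hk => ?_ : _ ≤ ∑ k ∈ (Finset.Icc (-(m : ℤ)) m).filter
        (fun k => ¬ 1 / 28 / √T ≤ hk T k), 1 / 28 / √T).trans ?_
      · rw [Finset.mem_filter] at hk
        exact (not_le.1 hk.2).le
      · rw [Finset.sum_const, nsmul_eq_mul]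
        refine mul_le_mul_of_nonneg_right ?_ (by positivity)
        rw [← hcardI]
        exact_mod_cast Finset.card_filter_le _ _
  have hm3 : 2 * T / (m : ℝ) ^ 2 ≤ 1 / 2 := by
    rw [div_le_iff₀ (by positivity)]
    nlinarith
  have hG1 : √T / (4 * C) ≤ G.card := by
    rw [div_le_iff₀ (by positivity)]
    have h1 : (1 : ℝ) / 2 ≤ G.card * (C / √T) + (2 * m + 1) * (1 / 28 / √T) := by linarith
    have h2 : (2 * (m : ℝ) + 1) * (1 / 28 / √T) ≤ 1 / 4 := by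
      rw [div_div, mul_one_div, div_le_iff₀ (by positivity)]
      linarith
    have h3 : (1 : ℝ) / 4 ≤ G.card * (C / √T) := by linarith
    rw [← mul_div_assoc, le_div_iff₀ (by linarith)] at h3
    linarith
  refine ⟨G.card, (G.orderEmbOfFin rfl).toEmbedding.trans (addRightEmbedding z), fun i => ?_, fun i => ?_, hG1, ?_⟩
  · have h1 := (hGm _ (G.orderEmbOfFin_mem rfl i)).1
    rw [Finset.mem_Icc] at h1
    show |((G.orderEmbOfFin rfl i + z : ℤ) : ℝ) - z| ≤ _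
    push_cast
    rw [add_sub_cancel_right, abs_le]
    have h2 : (-(m : ℝ)) ≤ ((G.orderEmbOfFin rfl i : ℤ) : ℝ) := by exact_mod_cast h1.1
    have h3 : ((G.orderEmbOfFin rfl i : ℤ) : ℝ) ≤ m := by exact_mod_cast h1.2
    constructor <;> linarith
  · have h1 := (hGm _ (G.orderEmbOfFin_mem rfl i)).2
    show 1 / 28 / √T ≤ hk T (G.orderEmbOfFin rfl i + z - z)
    rw [add_sub_cancel_right]
    exact h1
  · linarith

/-- Anticoncentration. -/
theorem anti (hMP : S_MP) (hEX : S_EX) (hHK : S_HK) (hHM : S_HM) (hAL : S_AL) (hEXPB : S_EXPB) (hPER : S_PER)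
    {ε : ℝ} (hε : 0 < ε) : ∃ s₀ T₀ : ℝ, 0 < s₀ ∧ 1 ≤ T₀ ∧ ∀ (T : ℝ) (R : ℕ) (z : ℤ), T₀ ≤ T →
      |(z : ℝ)| + 3 * √T ≤ R → pr R T {η : Cfg | |(η z : ℝ)| ≤ s₀ * Real.exp (2 * T) / √√T} ≤ ε := by
  obtain ⟨_, _, _, _, C, hC, hCb⟩ := hHK
  have hCk : ∀ t : ℝ, 0 ≤ t → ∀ k, hk t k ≤ C / √(1 + t) := fun t ht => (hCb t ht).1
  obtain ⟨CP, hCP, hper⟩ := hPER
  obtain ⟨θ, hθ, hal⟩ := hAL (1 / 28) (by norm_num)
  obtain ⟨s₀, hs₀e⟩ : ∃ s₀ : ℝ, s₀ = ε / (3 * (CP * (2 * √C) * 112)) := ⟨_, rfl⟩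
  have hCs : 0 < √C := Real.sqrt_pos.2 hC
  have hs₀ : 0 < s₀ := by rw [hs₀e]; positivity
  have hlim1 : Tendsto (fun q : ℝ => CP * (64 * q ^ 4 * Real.exp (-(2 * θ * s₀ * q)))) atTop (𝓝 0) := by
    have h1 := (Real.tendsto_pow_mul_exp_neg_atTop_nhds_zero 4).comp
      (tendsto_id.const_mul_atTop (show 0 < 2 * θ * s₀ by positivity))
    have h2 := h1.const_mul (CP * 64 / (2 * θ * s₀) ^ 4)
    rw [mul_zero] at h2
    refine h2.congr fun q => ?_
    simp only [Function.comp, id]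
    have h3 : (2 * θ * s₀) ≠ 0 := by positivity
    field_simp
  have hlim2 : Tendsto (fun q : ℝ => CP * (2 * √C) / q) atTop (𝓝 0) := tendsto_const_nhds.div_atTop tendsto_id
  obtain ⟨q₁, hq₁⟩ := ((hlim1.eventually (gt_mem_nhds (show (0 : ℝ) < ε / 3 by positivity))).and
    (hlim2.eventually (gt_mem_nhds (show (0 : ℝ) < ε / 3 by positivity)))).exists_forall_of_atTop
  obtain ⟨Q, hQ⟩ : ∃ Q : ℝ, Q = max q₁ 1 := ⟨_, rfl⟩
  have hQ1 : 1 ≤ Q := by rw [hQ]; exact le_max_right _ _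
  refine ⟨s₀, Q ^ 4, hs₀, one_le_pow₀ hQ1, fun T R z hT hzR => ?_⟩
  have hT1 : 1 ≤ T := (one_le_pow₀ hQ1).trans hT
  obtain ⟨q, hq⟩ : ∃ q, q = √√T := ⟨_, rfl⟩
  have hqq : q * q = √T := by rw [hq]; exact Real.mul_self_sqrt (Real.sqrt_nonneg _)
  have hTs : √T * √T = T := Real.mul_self_sqrt (by linarith)
  have hq1 : Q ≤ q := by
    rw [hq]
    refine Real.le_sqrt_of_sq_le (Real.le_sqrt_of_sq_le ?_)
    rw [← pow_mul]
    exact hT
  have hq0 : 0 < q := by linarith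
  have hqq₁ := hq₁ q (le_trans (by rw [hQ]; exact le_max_left _ _) hq1)
  obtain ⟨n, emb, he1, he2, he3, he4⟩ := good_sites hHM hC hCk hT1 z
  have hR : ∀ i, emb i ∈ Finset.Icc (-(R : ℤ)) R := by
    intro i
    have h1 := he1 i
    have h2 : |((emb i : ℤ) : ℝ)| ≤ R := by
      have := abs_add_le (((emb i : ℤ) : ℝ) - z) z
      rw [sub_add_cancel] at this
      linarith
    have h3 : |(emb i : ℤ)| ≤ (R : ℤ) := by exact_mod_cast h2
    rw [Finset.mem_Icc]
    exact abs_le.1 h3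
  obtain ⟨α, ha1, ha2, ha3, ha4⟩ := hal T hT1
  obtain ⟨l, hl⟩ : ∃ l, l = θ * Real.exp (-(2 * T)) * √T := ⟨_, rfl⟩
  rw [← hl] at ha3
  have hl0 : 0 ≤ l := by rw [hl]; positivity
  obtain ⟨s, hs⟩ : ∃ s, s = s₀ * Real.exp (2 * T) / √√T := ⟨_, rfl⟩
  have hs0 : 0 ≤ s := by rw [hs]; positivity
  obtain ⟨m, hm⟩ : ∃ m, m = ⌈112 * s₀ * q⌉₊ := ⟨_, rfl⟩
  have hm1 : 112 * s₀ * q ≤ m := by rw [hm]; exact Nat.le_ceil _
  have hm2 : (m : ℝ) ≤ 112 * s₀ * q + 1 := by
    have := Nat.ceil_lt_add_one (show 0 ≤ 112 * s₀ * q by positivity)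
    rw [← hm] at this
    linarith
  have hexp : l * (2 * s) - 2 * (m * (θ * (1 / 28) / 2)) ≤ -(2 * θ * s₀ * q) := by
    have e1 : l * (2 * s) = 2 * θ * s₀ * q := by
      rw [hl, hs, ← hq, ← hqq]
      have e2 : Real.exp (-(2 * T)) * Real.exp (2 * T) = 1 := by rw [← Real.exp_add]; simp
      field_simp
      linear_combination e2
    rw [e1]
    have h1 : θ * (112 * s₀ * q) ≤ θ * m := mul_le_mul_of_nonneg_left hm1 hθ.le
    linarith
  rw [← hs]
  refine pr_le R T _ emb hR fun S₂ hS₂ => ?_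
  have hK : ∀ π : Equiv.Perm (Fin n), ∑ k ∈ Finset.range (n + 1),
      UC.P (ind {η : Cfg | |(η z : ℝ)| ≤ s}) T (ini R ((Finset.univ.filter fun i => ((π i : Fin n) : ℕ) < k).map emb ∪ S₂))
        ≤ m + (n + 1) * ((n + 1) * Real.exp (-(2 * θ * s₀ * q))) := by
    intro π
    have h1 := chain_bound hMP hEX hEXPB emb S₂ π hR hS₂ (by linarith : (0 : ℝ) ≤ T) z α ha1 ha2 ha3 hl0
      (c := θ * (1 / 28) / 2) (by positivity) (fun i => ha4 _ (he2 i)) m hs0
    refine h1.trans (add_le_add le_rfl ?_)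
    have hn : (0 : ℝ) ≤ n + 1 := by positivity
    exact mul_le_mul_of_nonneg_left (mul_le_mul_of_nonneg_left (Real.exp_le_exp.2 hexp) hn) hn
  have h2 := hper n (fun F => UC.P (ind {η : Cfg | |(η z : ℝ)| ≤ s}) T (ini R (F.map emb ∪ S₂))) _
    (fun F => P_nonneg hMP hEX UC _ (by linarith) _) hK
  refine h2.trans ?_
  have hn0 : (0 : ℝ) ≤ n := Nat.cast_nonneg n
  have hsq : q / (2 * √C) ≤ √((n : ℝ) + 1) := by
    refine Real.le_sqrt_of_sq_le ?_
    rw [div_pow, mul_pow, Real.sq_sqrt hC.le, sq q, hqq]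
    norm_num
    linarith
  have hsq1 : 1 ≤ √((n : ℝ) + 1) := by rw [Real.one_le_sqrt]; linarith
  have hsq0 : 0 < √((n : ℝ) + 1) := by linarith
  rw [mul_add, add_div]
  have hA : CP * (m : ℝ) / √((n : ℝ) + 1) ≤ ε / 3 + ε / 3 := by
    have h3 : CP * (m : ℝ) / √((n : ℝ) + 1) ≤ CP * (112 * s₀ * q + 1) / (q / (2 * √C)) :=
      div_le_div₀ (by positivity) (mul_le_mul_of_nonneg_left hm2 hCP.le) (by positivity) hsq
    refine h3.trans ?_
    have e : CP * (112 * s₀ * q + 1) / (q / (2 * √C)) = CP * (2 * √C) * 112 * s₀ + CP * (2 * √C) / q := by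
      field_simp
    rw [e]
    refine add_le_add (le_of_eq ?_) hqq₁.2.le
    rw [hs₀e]
    field_simp
  have hB : CP * ((n + 1) * ((n + 1) * Real.exp (-(2 * θ * s₀ * q)))) / √((n : ℝ) + 1) ≤ ε / 3 := by
    have h3 : CP * (((n : ℝ) + 1) * (((n : ℝ) + 1) * Real.exp (-(2 * θ * s₀ * q)))) / √((n : ℝ) + 1) ≤
        CP * (((n : ℝ) + 1) * (((n : ℝ) + 1) * Real.exp (-(2 * θ * s₀ * q)))) :=
      div_le_self (by positivity) hsq1
    refine h3.trans (le_trans ?_ hqq₁.1.le)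
    refine mul_le_mul_of_nonneg_left ?_ hCP.le
    rw [← mul_assoc]
    refine mul_le_mul_of_nonneg_right ?_ (Real.exp_pos _).le
    have h4 : (n : ℝ) + 1 ≤ 8 * (q * q) := by rw [hqq]; exact he4
    have h5 : (0 : ℝ) ≤ n + 1 := by positivity
    calc ((n : ℝ) + 1) * (n + 1) ≤ (8 * (q * q)) * (8 * (q * q)) := mul_le_mul h4 h4 h5 (by positivity)
      _ = 64 * q ^ 4 := by ring
  linarith

end Pool.Agent.D0H96.UR
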