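import Pool.Agent.D0H96.UR.Stm

/-!
Project UR: continuous time Markov chains with finitely many moves of rate one and linear growth.
-/

set_option autoImplicit false

open Filter Topology MeasureTheory Set

namespace Pool.Agent.D0H96.UR

/-- A continuous time Markov chain: from `x` each of the moves `s ∈ mv x` is made at rate one. -/
structure Chain (X σ : Type) where
  act : σ → X → X
  mv : X → Finset σ
  phi : X → ℝ
  b : ℝ
  b0 : 0 ≤ b
  phi0 : ∀ x, 0 ≤ phi x
  card : ∀ x, ((mv x).card : ℝ) ≤ phi x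
  step : ∀ x, ∀ s ∈ mv x, phi (act s x) ≤ phi x + b

namespace Chain

variable {X σ : Type} (C : Chain X σ)

def sys : Sys X σ := ⟨C.act, C.mv, fun x => ((C.mv x).card : ℝ)⟩

theorem grow : Grow C.sys C.phi C.b where
  b0 := C.b0
  r0 := fun x => Nat.cast_nonneg _
  phi0 := C.phi0
  card := C.card
  drift := fun x => by
    show ∑ s ∈ C.mv x, C.phi (C.act s x) ≤ (((C.mv x).card : ℝ) + C.b) * C.phi x
    have h1 : ∑ s ∈ C.mv x, C.phi (C.act s x) ≤ ∑ s ∈ C.mv x, (C.phi x + C.b) :=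
      Finset.sum_le_sum fun s hs => C.step x s hs
    rw [Finset.sum_const, nsmul_eq_mul] at h1
    have h2 := mul_le_mul_of_nonneg_right (C.card x) C.b0
    nlinarith

/-- The generator. -/
noncomputable def gen (F : X → ℝ) (x : X) : ℝ := ∑ s ∈ C.mv x, (F (C.act s x) - F x)

theorem rhs_eq (F : X → ℝ) (x : X) : rhs C.sys F x = C.gen F x := by
  unfold rhs gen
  show ∑ s ∈ C.mv x, F (C.act s x) - ((C.mv x).card : ℝ) * F x = _
  rw [Finset.sum_sub_distrib, Finset.sum_const, nsmul_eq_mul]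

/-- Bounded solution of the backward equation with initial value `F`. -/
structure Sol (F : X → ℝ) (u : ℝ → X → ℝ) : Prop where
  zero : ∀ x, u 0 x = F x
  cont : ∀ x, ContinuousOn (fun t => u t x) (Ici 0)
  deriv : ∀ x t, 0 < t → HasDerivAt (fun t => u t x) (C.gen (u t) x) t
  bdd : ∃ B, ∀ x t, 0 ≤ t → |u t x| ≤ B

variable {C}

/-- Comparison on an invariant set. -/
theorem Sol.le (hMP : S_MP) {F : X → ℝ} {u : ℝ → X → ℝ} (hu : C.Sol F u) {I : Set X}
    (hI : ∀ x ∈ I, ∀ s ∈ C.mv x, C.act s x ∈ I) {T : ℝ} (hT : 0 ≤ T) {g : ℝ → X → ℝ} {B : ℝ}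
    (hgc : ∀ x ∈ I, ContinuousOn (fun t => g t x) (Icc 0 T))
    (hgd : ∀ x ∈ I, ∀ t ∈ Ioo 0 T, ∃ d, HasDerivAt (fun t => g t x) d t ∧ C.gen (g t) x ≤ d)
    (hgb : ∀ x ∈ I, ∀ t ∈ Icc 0 T, B ≤ g t x) (h0 : ∀ x ∈ I, F x ≤ g 0 x) :
    ∀ x ∈ I, u T x ≤ g T x := by
  obtain ⟨A, hA⟩ := hu.bdd
  intro x hx
  have h := hMP X σ C.sys C.phi C.b I T (A - B) (fun t x => u t x - g t x) C.grow hI hT
    (fun x hx => ((hu.cont x).mono Icc_subset_Ici_self).sub (hgc x hx))
    (fun x hx t ht => by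
      obtain ⟨d, hd, hle⟩ := hgd x hx t ht
      refine ⟨_, (hu.deriv x t ht.1).sub hd, ?_⟩
      have e : rhs C.sys (fun x => u t x - g t x) x = C.gen (u t) x - C.gen (g t) x := by
        rw [rhs_eq]
        unfold gen
        rw [← Finset.sum_sub_distrib]
        exact Finset.sum_congr rfl fun s _ => by ring
      show C.gen (u t) x - d ≤ rhs C.sys (fun x => u t x - g t x) x
      rw [e]
      linarith)
    (fun x hx t ht => by
      have h1 := (abs_le.1 (hA x t ht.1)).2
      have h2 := hgb x hx t ht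
      show u t x - g t x ≤ A - B
      linarith)
    (fun x hx => by
      have h1 := h0 x hx
      show u 0 x - g 0 x ≤ 0
      rw [hu.zero]
      linarith) x hx T ⟨hT, le_rfl⟩
  have h' : u T x - g T x ≤ 0 := h
  linarith

theorem Sol.neg {F : X → ℝ} {u : ℝ → X → ℝ} (hu : C.Sol F u) : C.Sol (fun x => -F x) (fun t x => -u t x) where
  zero := fun x => by rw [hu.zero]
  cont := fun x => (hu.cont x).neg
  deriv := fun x t ht => by
    have e : C.gen (fun x => -u t x) x = -C.gen (u t) x := by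
      unfold gen
      rw [← Finset.sum_neg_distrib]
      exact Finset.sum_congr rfl fun s _ => by ring
    rw [e]
    exact (hu.deriv x t ht).neg
  bdd := by
    obtain ⟨B, hB⟩ := hu.bdd
    exact ⟨B, fun x t ht => by rw [abs_neg]; exact hB x t ht⟩

theorem Sol.add {F G : X → ℝ} {u v : ℝ → X → ℝ} (hu : C.Sol F u) (hv : C.Sol G v) :
    C.Sol (fun x => F x + G x) (fun t x => u t x + v t x) where
  zero := fun x => by rw [hu.zero, hv.zero]
  cont := fun x => (hu.cont x).add (hv.cont x)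
  deriv := fun x t ht => by
    have e : C.gen (fun x => u t x + v t x) x = C.gen (u t) x + C.gen (v t) x := by
      unfold gen
      rw [← Finset.sum_add_distrib]
      exact Finset.sum_congr rfl fun s _ => by ring
    rw [e]
    exact (hu.deriv x t ht).add (hv.deriv x t ht)
  bdd := by
    obtain ⟨B, hB⟩ := hu.bdd
    obtain ⟨B', hB'⟩ := hv.bdd
    exact ⟨B + B', fun x t ht => (abs_add_le _ _).trans (add_le_add (hB x t ht) (hB' x t ht))⟩

theorem Sol.smul {F : X → ℝ} {u : ℝ → X → ℝ} (c : ℝ) (hu : C.Sol F u) :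
    C.Sol (fun x => c * F x) (fun t x => c * u t x) where
  zero := fun x => by rw [hu.zero]
  cont := fun x => continuousOn_const.mul (hu.cont x)
  deriv := fun x t ht => by
    have e : C.gen (fun x => c * u t x) x = c * C.gen (u t) x := by
      unfold gen
      rw [Finset.mul_sum]
      exact Finset.sum_congr rfl fun s _ => by ring
    rw [e]
    exact (hu.deriv x t ht).const_mul c
  bdd := by
    obtain ⟨B, hB⟩ := hu.bdd
    refine ⟨|c| * B, fun x t ht => ?_⟩
    rw [abs_mul]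
    exact mul_le_mul_of_nonneg_left (hB x t ht) (abs_nonneg _)

theorem Sol.const (c : ℝ) : C.Sol (fun _ => c) (fun _ _ => c) where
  zero := fun x => rfl
  cont := fun x => continuousOn_const
  deriv := fun x t ht => by
    have e : C.gen (fun _ => c) x = 0 := by
      unfold gen
      simp
    rw [e]
    exact hasDerivAt_const t c
  bdd := ⟨|c|, fun x t ht => le_rfl⟩

/-- Comparison of two solutions whose initial values are ordered on an invariant set. -/
theorem Sol.mono (hMP : S_MP) {F G : X → ℝ} {u v : ℝ → X → ℝ} (hu : C.Sol F u) (hv : C.Sol G v) {I : Set X}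
    (hI : ∀ x ∈ I, ∀ s ∈ C.mv x, C.act s x ∈ I) (h : ∀ x ∈ I, F x ≤ G x) {x : X} (hx : x ∈ I) {t : ℝ}
    (ht : 0 ≤ t) : u t x ≤ v t x := by
  obtain ⟨B, hB⟩ := hv.bdd
  refine hu.le hMP hI ht (B := -B) (fun x _ => (hv.cont x).mono Icc_subset_Ici_self)
    (fun x _ s hs => ⟨_, hv.deriv x s hs.1, le_rfl⟩) (fun x _ s hs => (abs_le.1 (hB x s hs.1)).1) (fun x hx => ?_) x hx
  rw [hv.zero]
  exact h x hx

theorem Sol.unique (hMP : S_MP) {F : X → ℝ} {u v : ℝ → X → ℝ} (hu : C.Sol F u) (hv : C.Sol F v) {t : ℝ}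
    (ht : 0 ≤ t) (x : X) : u t x = v t x :=
  le_antisymm (hu.mono hMP hv (I := univ) (fun _ _ _ _ => mem_univ _) (fun _ _ => le_rfl) (mem_univ x) ht)
    (hv.mono hMP hu (I := univ) (fun _ _ _ _ => mem_univ _) (fun _ _ => le_rfl) (mem_univ x) ht)

theorem exists_sol (hEX : S_EX) (C : Chain X σ) (F : X → ℝ) (hF : ∃ A, ∀ x, |F x| ≤ A) : ∃ u, C.Sol F u := by
  obtain ⟨A, hA⟩ := hF
  by_cases hX : Nonempty X
  swap
  · refine ⟨fun _ x => 0, fun x => (hX ⟨x⟩).elim, fun x => (hX ⟨x⟩).elim, fun x => (hX ⟨x⟩).elim,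
      ⟨0, fun x => (hX ⟨x⟩).elim⟩⟩
  obtain ⟨x₀⟩ := hX
  have hA0 : 0 ≤ A := (abs_nonneg _).trans (hA x₀)
  obtain ⟨u, h0, hc, hd, hb⟩ := hEX X σ C.sys C.phi C.b 0 0 A 0 F (fun _ _ => 0) C.grow le_rfl le_rfl hA0 le_rfl
    (fun x => by rw [add_zero]; exact le_rfl) hA (fun x => continuous_const) (fun t x _ => by simp)
  refine ⟨u, h0, hc, fun x t ht => ?_, ⟨A, fun x t ht => ?_⟩⟩
  · have := hd x t ht
    rw [rhs_eq, add_zero] at this
    exact this
  · have := hb x t ht
    simpa using this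

/-- The semigroup. -/
noncomputable def P (C : Chain X σ) (F : X → ℝ) : ℝ → X → ℝ :=
  open Classical in if h : ∃ u, C.Sol F u then h.choose else fun _ _ => 0

theorem P_sol (hEX : S_EX) (C : Chain X σ) {F : X → ℝ} (hF : ∃ A, ∀ x, |F x| ≤ A) : C.Sol F (C.P F) := by
  have h := exists_sol hEX C F hF
  unfold P
  rw [dif_pos h]
  exact h.choose_spec

/-- Indicator of a set. -/
noncomputable def ind (E : Set X) (x : X) : ℝ := open Classical in if x ∈ E then 1 else 0

theorem ind_bdd (E : Set X) : ∃ A, ∀ x, |ind E x| ≤ A := ⟨1, fun x => by unfold ind; split_ifs <;> simp⟩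

theorem ind_nonneg (E : Set X) (x : X) : 0 ≤ ind E x := by unfold ind; split_ifs <;> simp

theorem ind_le_one (E : Set X) (x : X) : ind E x ≤ 1 := by unfold ind; split_ifs <;> simp

theorem ind_of_mem {E : Set X} {x : X} (h : x ∈ E) : ind E x = 1 := by unfold ind; rw [if_pos h]

theorem ind_of_notMem {E : Set X} {x : X} (h : x ∉ E) : ind E x = 0 := by unfold ind; rw [if_neg h]

/-- Image of a chain. -/
theorem Sol.map {X' σ' : Type} {C' : Chain X' σ'} {π : X' → X} {F : X → ℝ} {u : ℝ → X → ℝ} (hu : C.Sol F u)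
    (hπ : ∀ (f : X → ℝ) (x : X'), C'.gen (fun y => f (π y)) x = C.gen f (π x)) :
    C'.Sol (fun y => F (π y)) (fun t y => u t (π y)) where
  zero := fun x => hu.zero _
  cont := fun x => hu.cont _
  deriv := fun x t ht => by
    rw [hπ (u t) x]
    exact hu.deriv _ t ht
  bdd := by
    obtain ⟨B, hB⟩ := hu.bdd
    exact ⟨B, fun x t ht => hB _ t ht⟩

theorem Sol.sum {ι : Type} (s : Finset ι) {F : ι → X → ℝ} {u : ι → ℝ → X → ℝ} (hu : ∀ i ∈ s, C.Sol (F i) (u i)) :
    C.Sol (fun x => ∑ i ∈ s, F i x) (fun t x => ∑ i ∈ s, u i t x) := by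
  classical
  induction s using Finset.induction_on with
  | empty => simpa using Sol.const (C := C) 0
  | insert a s ha ih =>
    simp only [Finset.sum_insert ha]
    exact (hu a (Finset.mem_insert_self _ _)).add (ih fun i hi => hu i (Finset.mem_insert_of_mem hi))

end Chain

end Pool.Agent.D0H96.UR
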