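import Pool.Agent.D0H96.UR.Stm

/-!
Project UR: the definitions of the final statement.
-/

set_option autoImplicit false

open Filter Topology MeasureTheory Set

namespace Pool.Agent.D0H96.UR

/-- The configurations with finitely many balls: `η k` red balls at the site `k` if `η k > 0`, `-η k` blue balls if
`η k < 0`. -/
abbrev Cfg := ℤ →₀ ℤ

/-- The configuration after a nucleation at `k`: one ball of the colour of the site `k` is sent to each of the
neighbours. -/
noncomputable def nuc (k : ℤ) (η : Cfg) : Cfg :=
  η + Finsupp.single (k - 1) (η k).sign + Finsupp.single (k + 1) (η k).sign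

/-- `p t η ξ` are the transition probabilities of the Markov process in which every ball has a clock of rate one: from
the configuration `η` the process jumps at rate `|η k|` (the number of the balls at `k`) to `nuc k η`. They are
probabilities (`nonneg`, `total`) with Kolmogorov's backward equation (`backward`). -/
structure IsUrn (p : ℝ → Cfg → Cfg → ℝ) : Prop where
  nonneg : ∀ t η ξ, 0 ≤ t → 0 ≤ p t η ξ
  total : ∀ t η, 0 ≤ t → HasSum (fun ξ => p t η ξ) 1
  zero : ∀ η ξ, p 0 η ξ = if η = ξ then 1 else 0
  cont : ∀ η ξ, ContinuousOn (fun t => p t η ξ) (Ici 0)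
  backward : ∀ t η ξ, 0 < t →
    HasDerivAt (fun s => p s η ξ) (∑ k ∈ η.support, |(η k : ℝ)| * (p t (nuc k η) ξ - p t η ξ)) t

/-- One ball at each site of `[-R, R]`, red at the sites in `S` and blue at the others. -/
noncomputable def ini (R : ℕ) (S : Finset ℤ) : Cfg :=
  ∑ k ∈ Finset.Icc (-(R : ℤ)) R, Finsupp.single k (if k ∈ S then 1 else -1)

/-- The probability that at time `t` the configuration is in the set `E`, if at time `0` there is one ball at each site
of `[-R, R]`, with colours given by independent fair coins (the set `S` of the red sites is uniform). -/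
noncomputable def prob (p : ℝ → Cfg → Cfg → ℝ) (R : ℕ) (t : ℝ) (E : Set (ℤ → ℤ)) : ℝ :=
  (∑ S ∈ (Finset.Icc (-(R : ℤ)) R).powerset, ∑' ξ : Cfg, open Classical in
    if (⇑ξ : ℤ → ℤ) ∈ E then p t (ini R S) ξ else 0) / 2 ^ (2 * R + 1)

/-- `μ` is the law at time `t` of the configuration of the system on the whole line, which starts with one ball at each
site: the limit `R → ∞` of the systems which start with balls at the sites of `[-R, R]`, for all events that depend on
finitely many sites. -/
def IsLaw (p : ℝ → Cfg → Cfg → ℝ) (t : ℝ) (μ : Measure (ℤ → ℤ)) : Prop :=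
  IsProbabilityMeasure μ ∧ ∀ (N : ℕ) (E : Set (ℤ → ℤ)), Loc N E →
    Tendsto (fun R => prob p R t E) atTop (𝓝 (μ.real E))

end Pool.Agent.D0H96.UR
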