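import Pool.Agent.D0H96.UR.Fv2
import Pool.Agent.D0H84.UR.Vv
import Pool.Agent.D0H87.UR.Ex
import Pool.Agent.D0H65.UR.Hk
import Pool.Agent.D0H65.UR.Al
import Pool.Agent.D0H65.UR.Num1
import Pool.Agent.D0H65.UR.Num2
import Pool.Agent.D0H71.UR.Per
import Pool.Agent.D0H71.UR.Geo
import Pool.Agent.D0H71.UR.Kol
import Pool.Agent.D0H52.UR.Law
import Pool.Agent.D0H52.UR.Gd

/-!
Project UR: assembly.
-/

set_option autoImplicit false

open Filter Topology MeasureTheory Set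

namespace Pool.Agent.D0H96.UR

/-- In the configuration `ξ` the site `0` is in a monochromatic interval, and every monochromatic interval which
contains the site `0` is finite and has at least `a` and at most `b` sites. -/
def Width (ξ : ℤ → ℤ) (a b : ℝ) : Prop :=
  (∃ I, IsMono ξ I ∧ (0 : ℤ) ∈ I) ∧
    ∀ I, IsMono ξ I → (0 : ℤ) ∈ I → I.Finite ∧ a ≤ (I.ncard : ℝ) ∧ (I.ncard : ℝ) ≤ b

theorem mp : S_MP := Pool.Agent.D0H84.UR.t_MP
theorem ex : S_EX := Pool.Agent.D0H87.UR.t_EX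
theorem hkk : S_HK := Pool.Agent.D0H65.UR.t_HK
theorem hm : S_HM := Pool.Agent.D0H84.UR.t_HM hkk
theorem vv : S_VV := Pool.Agent.D0H84.UR.t_VV hkk ex
theorem al : S_AL := Pool.Agent.D0H65.UR.t_AL mp ex hkk
theorem per : S_PER := Pool.Agent.D0H71.UR.t_PER
theorem geo : S_GEO := Pool.Agent.D0H71.UR.t_GEO
theorem kol : S_KOL := Pool.Agent.D0H71.UR.t_KOL
theorem expb : S_EXPB := Pool.Agent.D0H52.UR.t_EXPB mp ex
theorem dif : S_DIF := Pool.Agent.D0H52.UR.t_DIF mp ex hkk hm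
theorem num1 : S_NUM1 := Pool.Agent.D0H65.UR.t_NUM1 mp ex hkk vv
theorem num2 : S_NUM2 := Pool.Agent.D0H65.UR.t_NUM2 mp ex hkk hm vv
theorem law : S_LAW := Pool.Agent.D0H52.UR.t_LAW mp ex hm kol dif

/-- The law is unique. -/
theorem law_unique {p : ℝ → Cfg → Cfg → ℝ} {t : ℝ} {μ ν : Measure (ℤ → ℤ)} (hμ : IsLaw p t μ) (hν : IsLaw p t ν) :
    ν = μ := by
  have := hμ.1
  have := hν.1
  have key : ∀ E ∈ measurableCylinders (fun _ : ℤ => ℤ), ν E = μ E := by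
    intro E hE
    obtain ⟨s, S, -, rfl⟩ := (mem_measurableCylinders _).1 hE
    have hloc : Loc (s.sup Int.natAbs) (cylinder s S) := by
      intro ξ ξ' h
      have : s.restrict ξ = s.restrict ξ' := by
        funext x
        refine h x.1 ?_
        have h1 : x.1.natAbs ≤ s.sup Int.natAbs := Finset.le_sup (f := Int.natAbs) x.2
        have h2 : |(x.1 : ℤ)| = ((x.1.natAbs : ℕ) : ℤ) := Int.abs_eq_natAbs _
        rw [h2]
        exact_mod_cast h1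
      rw [mem_cylinder, mem_cylinder, this]
    have h3 := tendsto_nhds_unique (hν.2 _ _ hloc) (hμ.2 _ _ hloc)
    rwa [measureReal_eq_measureReal_iff] at h3
  exact ext_of_generate_finite _ generateFrom_measurableCylinders.symm isPiSystem_measurableCylinders key
    (by rw [measure_univ, measure_univ])

theorem loc_Gd (N L : ℕ) : Loc (max N L) (Gd N L)ᶜ := by
  have h1 : ∀ ξ ξ' : ℤ → ℤ, (∀ x : ℤ, |x| ≤ (max N L : ℕ) → ξ x = ξ' x) → ξ ∈ Gd N L → ξ' ∈ Gd N L := by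
    rintro ξ ξ' h ⟨ha, ⟨x, hx1, hx2, hx3⟩, ⟨y, hy1, hy2, hy3⟩⟩
    have h0 : ξ 0 = ξ' 0 := h 0 (by simp)
    refine ⟨fun z hz => ?_, ⟨x, hx1, hx2, ?_⟩, ⟨y, hy1, hy2, ?_⟩⟩
    · rw [← h0, ← h z (hz.trans (by exact_mod_cast le_max_left _ _))]
      exact ha z hz
    · rw [← h0, ← h x ?_]
      · exact hx3
      · rw [abs_of_pos hx1]
        exact hx2.trans (by exact_mod_cast le_max_right _ _)
    · rw [← h0, ← h y ?_]
      · exact hy3
      · rw [abs_of_neg hy1]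
        have : (L : ℤ) ≤ (max N L : ℕ) := by exact_mod_cast le_max_right _ _
        linarith
  intro ξ ξ' h
  rw [mem_compl_iff, mem_compl_iff, not_iff_not]
  exact ⟨h1 ξ ξ' h, h1 ξ' ξ fun x hx => (h x hx).symm⟩

/-- The width is of order `√t`. -/
theorem tight (μ : ℝ → Measure (ℤ → ℤ)) (hμ : ∀ t, 0 ≤ t → IsLaw ptr t (μ t)) (ε : ℝ) (hε : 0 < ε) :
    ∃ c C T₀ : ℝ, 0 < c ∧ 1 ≤ T₀ ∧ ∀ t, T₀ ≤ t →
      μ t {ξ | ¬ Width ξ (c * √t) (C * √t)} ≤ ENNReal.ofReal ε := by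
  obtain ⟨c, C, T₀, hc, -, hT₀, h⟩ := fv mp ex hkk hm al expb per num1 num2 hε
  refine ⟨c, C, T₀, hc, hT₀, fun t ht => ?_⟩
  have ht0 : 0 ≤ t := by linarith
  obtain ⟨N, L, hN, hL, R₀, hR⟩ := h t ht
  obtain ⟨hprob, hlim⟩ := hμ t ht0
  have := hprob
  have h1 : (μ t).real (Gd N L)ᶜ ≤ ε := by
    refine le_of_tendsto (hlim _ _ (loc_Gd N L)) ?_
    filter_upwards [eventually_ge_atTop R₀] with R hR'
    rw [law.1 R t _ ht0]
    exact hR R hR'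
  have h2 : {ξ | ¬ Width ξ (c * √t) (C * √t)} ⊆ (Gd N L)ᶜ := by
    intro ξ hξ hG
    apply hξ
    obtain ⟨g1, g2⟩ := geo ξ N L hG.1 hG.2.1 hG.2.2
    refine ⟨g1, fun I hI h0 => ?_⟩
    obtain ⟨g3, g4⟩ := g2 I hI h0
    have hfin : I.Finite := by
      rw [← encard_lt_top_iff]
      exact lt_of_le_of_lt g4 (ENat.natCast_lt_top _)
    rw [← hfin.cast_ncard_eq] at g3 g4
    have g3' : 2 * N + 1 ≤ I.ncard := by exact_mod_cast g3
    have g4' : I.ncard ≤ 2 * L := by exact_mod_cast g4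
    refine ⟨hfin, hN.trans ?_, le_trans ?_ hL⟩
    · exact_mod_cast g3'
    · exact_mod_cast g4'
  calc μ t {ξ | ¬ Width ξ (c * √t) (C * √t)} ≤ μ t (Gd N L)ᶜ := measure_mono h2
    _ = ENNReal.ofReal ((μ t).real (Gd N L)ᶜ) := by rw [ofReal_measureReal]
    _ ≤ ENNReal.ofReal ε := ENNReal.ofReal_le_ofReal h1

/-- The estimate with `√(t / log t)` fails. -/
theorem fails (μ : ℝ → Measure (ℤ → ℤ))
    (h : ∀ ε : ℝ, 0 < ε → ∃ c C T₀ : ℝ, 0 < c ∧ 1 ≤ T₀ ∧ ∀ t, T₀ ≤ t →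
      μ t {ξ | ¬ Width ξ (c * √t) (C * √t)} ≤ ENNReal.ofReal ε) (C : ℝ) :
    Tendsto (fun t => μ t {ξ | ∃ I, IsMono ξ I ∧ (0 : ℤ) ∈ I ∧ I.Finite ∧
      (I.ncard : ℝ) ≤ C * √(t / Real.log t)}) atTop (𝓝 0) := by
  rw [ENNReal.tendsto_nhds_zero]
  intro δ hδ
  obtain ⟨ε, hε, hεδ⟩ : ∃ ε : ℝ, 0 < ε ∧ ENNReal.ofReal ε ≤ δ := by
    rcases eq_or_ne δ ⊤ with h1 | h1
    · exact ⟨1, one_pos, by rw [h1]; exact le_top⟩
    · exact ⟨δ.toReal, ENNReal.toReal_pos hδ.ne' h1, by rw [ENNReal.ofReal_toReal h1]⟩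
  obtain ⟨c, C', T₀, hc, hT₀, h2⟩ := h ε hε
  have h3 : ∀ᶠ t : ℝ in atTop, (C / c) ^ 2 < Real.log t := Real.tendsto_log_atTop.eventually_gt_atTop _
  filter_upwards [eventually_ge_atTop T₀, h3, eventually_gt_atTop (1 : ℝ)] with t ht1 ht2 ht3
  refine (measure_mono ?_).trans ((h2 t ht1).trans hεδ)
  rintro ξ ⟨I, hI, h0, -, hle⟩ hW
  obtain ⟨-, h4, -⟩ := hW.2 I hI h0
  have hlog : 0 < Real.log t := Real.log_pos ht3
  have hst : 0 < √t := Real.sqrt_pos.2 (by linarith)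
  have h5 : c * √t ≤ C * √(t / Real.log t) := h4.trans hle
  rw [Real.sqrt_div (by linarith), mul_div_assoc', le_div_iff₀ (Real.sqrt_pos.2 hlog)] at h5
  have h6 : c * √(Real.log t) ≤ C := by
    have : c * √(Real.log t) * √t ≤ C * √t := by linarith
    exact le_of_mul_le_mul_right this hst
  have h7 : √(Real.log t) ≤ C / c := by rw [le_div_iff₀ hc]; linarith
  have h8 : Real.log t ≤ (C / c) ^ 2 := by
    rw [← Real.sq_sqrt hlog.le]
    exact pow_le_pow_left₀ (Real.sqrt_nonneg _) h7 2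
  linarith

end Pool.Agent.D0H96.UR
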