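import Pool.Agent.D0H96.UR.Ant2

/-!
Project UR: the width of the interval of the origin for the systems started on `[-R, R]`.
-/

set_option autoImplicit false

open Filter Topology MeasureTheory Set

namespace Pool.Agent.D0H96.UR

open Chain

theorem pr_le_sum (hMP : S_MP) (hEX : S_EX) {ι : Type} (A : Finset ι) (c : ι → ℝ) (Es : ι → Set Cfg) (E : Set Cfg)
    (h : ∀ η, ind E η ≤ ∑ i ∈ A, c i * ind (Es i) η) (R : ℕ) {T : ℝ} (hT : 0 ≤ T) :
    pr R T E ≤ ∑ i ∈ A, c i * pr R T (Es i) := by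
  have h1 : ∀ η, UC.P (ind E) T η ≤ ∑ i ∈ A, c i * UC.P (ind (Es i)) T η := fun η =>
    (P_sol hEX UC (ind_bdd E)).mono hMP (Sol.sum A fun i _ => (P_sol hEX UC (ind_bdd (Es i))).smul (c i))
      (I := univ) (fun _ _ _ _ => mem_univ _) (fun η _ => h η) (mem_univ η) hT
  unfold pr
  have e : ∑ i ∈ A, c i * ((∑ S ∈ (Finset.Icc (-(R : ℤ)) R).powerset, UC.P (ind (Es i)) T (ini R S)) / 2 ^ (2 * R + 1)) =
      (∑ S ∈ (Finset.Icc (-(R : ℤ)) R).powerset, ∑ i ∈ A, c i * UC.P (ind (Es i)) T (ini R S)) / 2 ^ (2 * R + 1) := by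
    rw [Finset.sum_comm, Finset.sum_div]
    refine Finset.sum_congr rfl fun i _ => ?_
    rw [← Finset.mul_sum, mul_div_assoc]
  rw [e]
  exact div_le_div_of_nonneg_right (Finset.sum_le_sum fun S _ => h1 _) (by positivity)

theorem pr_union (hMP : S_MP) (hEX : S_EX) {E E₁ E₂ : Set Cfg} (h : E ⊆ E₁ ∪ E₂) (R : ℕ) {T : ℝ} (hT : 0 ≤ T) :
    pr R T E ≤ pr R T E₁ + pr R T E₂ := by
  have h1 := pr_le_sum hMP hEX (Finset.univ : Finset Bool) (fun _ => 1) (fun b => if b then E₁ else E₂) E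
    (fun η => by
      rw [Fintype.sum_bool]
      simp only [if_true, one_mul, Bool.false_eq_true, if_false]
      by_cases hη : η ∈ E
      · rw [ind_of_mem hη]
        rcases h hη with h2 | h2
        · rw [ind_of_mem h2]
          have := ind_nonneg E₂ η
          linarith
        · rw [ind_of_mem h2]
          have := ind_nonneg E₁ η
          linarith
      · rw [ind_of_notMem hη]
        exact add_nonneg (ind_nonneg _ _) (ind_nonneg _ _)) R hT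
  rw [Fintype.sum_bool] at h1
  simpa using h1

/-- The good event: no change of the sign on `[-N, N]`, changes of the sign on `[1, L]` and on `[-L, -1]`. -/
def Gd (N L : ℕ) : Set (ℤ → ℤ) := {ξ | (∀ x : ℤ, |x| ≤ N → 0 < ξ 0 * ξ x) ∧
  (∃ x : ℤ, 0 < x ∧ x ≤ L ∧ ξ 0 * ξ x < 0) ∧ ∃ x : ℤ, x < 0 ∧ -(L : ℤ) ≤ x ∧ ξ 0 * ξ x < 0}

/-- Sums of squares of differences. -/
theorem diff_sq (f : ℤ → ℝ) (N : ℕ) {x : ℤ} (hx : |x| ≤ N) :
    (f x - f 0) ^ 2 ≤ N * ∑ y ∈ Finset.Ico (-(N : ℤ)) N, (f (y + 1) - f y) ^ 2 := by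
  have key : ∀ (a : ℤ) (n : ℕ), (f (a + n) - f a) ^ 2 ≤ n * ∑ i ∈ Finset.range n, (f (a + i + 1) - f (a + i)) ^ 2 := by
    intro a n
    have e : f (a + n) - f a = ∑ i ∈ Finset.range n, (f (a + i + 1) - f (a + i)) := by
      have h := Finset.sum_range_sub (fun i : ℕ => f (a + i)) n
      simp only [Nat.cast_zero, add_zero] at h
      rw [← h]
      refine Finset.sum_congr rfl fun i _ => ?_
      push_cast
      rw [add_assoc]
    rw [e]
    have h := sq_sum_le_card_mul_sum_sq (s := Finset.range n) (f := fun i : ℕ => f (a + i + 1) - f (a + i))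
    rwa [Finset.card_range] at h
  have hsub : ∀ (a : ℤ) (n : ℕ), -(N : ℤ) ≤ a → a + n ≤ N → ∑ i ∈ Finset.range n, (f (a + i + 1) - f (a + i)) ^ 2 ≤
      ∑ y ∈ Finset.Ico (-(N : ℤ)) N, (f (y + 1) - f y) ^ 2 := by
    intro a n h1 h2
    have e : ∑ i ∈ Finset.range n, (f (a + i + 1) - f (a + i)) ^ 2 =
        ∑ y ∈ (Finset.range n).map ⟨fun i : ℕ => a + i, fun i j h => by simpa using h⟩, (f (y + 1) - f y) ^ 2 := by
      rw [Finset.sum_map]
      rfl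
    rw [e]
    refine Finset.sum_le_sum_of_subset_of_nonneg (fun y hy => ?_) fun _ _ _ => sq_nonneg _
    rw [Finset.mem_map] at hy
    obtain ⟨i, hi, rfl⟩ := hy
    rw [Finset.mem_range] at hi
    show a + (i : ℤ) ∈ Finset.Ico (-(N : ℤ)) N
    rw [Finset.mem_Ico]
    constructor <;> omega
  have hmul : ∀ (n : ℕ) (A B : ℝ), n ≤ N → A ≤ B → 0 ≤ B → (n : ℝ) * A ≤ N * B := by
    intro n A B h1 h2 h3
    calc (n : ℝ) * A ≤ n * B := mul_le_mul_of_nonneg_left h2 (Nat.cast_nonneg n)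
      _ ≤ N * B := mul_le_mul_of_nonneg_right (by exact_mod_cast h1) h3
  have hS : 0 ≤ ∑ y ∈ Finset.Ico (-(N : ℤ)) N, (f (y + 1) - f y) ^ 2 := Finset.sum_nonneg fun _ _ => sq_nonneg _
  rcases le_total 0 x with h | h
  · obtain ⟨n, rfl⟩ := Int.eq_ofNat_of_zero_le h
    have hn : n ≤ N := by
      rw [abs_of_nonneg h] at hx
      omega
    have h1 := key 0 n
    rw [zero_add] at h1
    refine h1.trans (hmul n _ _ hn (hsub 0 n (by omega) (by omega)) hS)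
  · obtain ⟨n, hn'⟩ := Int.eq_ofNat_of_zero_le (show 0 ≤ -x by omega)
    have hn : n ≤ N := by
      rw [abs_of_nonpos h] at hx
      omega
    have h1 := key x n
    have e : x + (n : ℤ) = 0 := by omega
    rw [e] at h1
    have h2 : (f x - f 0) ^ 2 = (f 0 - f x) ^ 2 := by ring
    rw [h2]
    refine h1.trans (hmul n _ _ hn (hsub x n (by omega) (by omega)) hS)

/-- An interval without a change of the sign. -/
theorem same_sign (s : ℝ) (hs : 0 ≤ s) (η : ℤ → ℤ) (I : Finset ℤ) (h0 : s < |(η 0 : ℝ)|)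
    (h : ∀ x ∈ I, 0 ≤ η 0 * η x) :
    (I.card : ℝ) / 2 ≤ ∑ x ∈ I, ind {ξ : ℤ → ℤ | |(ξ x : ℝ)| ≤ s} η ∨ s * (I.card / 2) ≤ |∑ x ∈ I, (η x : ℝ)| := by
  by_contra hcon
  push Not at hcon
  obtain ⟨h1, h2⟩ := hcon
  have hne : (η 0 : ℝ) ≠ 0 := by
    intro h3
    rw [h3, abs_zero] at h0
    linarith
  have hpos : 0 < |(η 0 : ℝ)| := abs_pos.2 hne
  have h3 : |(η 0 : ℝ)| * |∑ x ∈ I, (η x : ℝ)| = |(η 0 : ℝ)| * ∑ x ∈ I, |(η x : ℝ)| := by
    rw [← abs_mul, Finset.mul_sum, Finset.mul_sum]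
    have e : ∀ x ∈ I, (η 0 : ℝ) * (η x : ℝ) = |(η 0 : ℝ)| * |(η x : ℝ)| := by
      intro x hx
      rw [← abs_mul]
      have : (0 : ℝ) ≤ (η 0 : ℝ) * (η x : ℝ) := by exact_mod_cast h x hx
      exact (abs_of_nonneg this).symm
    rw [Finset.sum_congr rfl e]
    exact abs_of_nonneg (Finset.sum_nonneg fun _ _ => by positivity)
  have h4 := mul_left_cancel₀ hpos.ne' h3
  have h5 : ∀ x ∈ I, s * (1 - ind {ξ : ℤ → ℤ | |(ξ x : ℝ)| ≤ s} η) ≤ |(η x : ℝ)| := by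
    intro x _
    by_cases h6 : |(η x : ℝ)| ≤ s
    · rw [ind_of_mem (E := {ξ : ℤ → ℤ | |(ξ x : ℝ)| ≤ s}) h6, sub_self, mul_zero]
      exact abs_nonneg _
    · rw [ind_of_notMem (E := {ξ : ℤ → ℤ | |(ξ x : ℝ)| ≤ s}) h6, sub_zero, mul_one]
      exact (not_le.1 h6).le
  have h6 := Finset.sum_le_sum h5
  rw [← Finset.mul_sum, Finset.sum_sub_distrib, Finset.sum_const, nsmul_eq_mul, mul_one, ← h4] at h6
  nlinarith

end Pool.Agent.D0H96.UR
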