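import Pool.Agent.D0H96.UR.Fv

/-!
Project UR: the bound of the probability of the bad event for the systems started on `[-R, R]`.
-/

set_option autoImplicit false

open Filter Topology MeasureTheory Set

namespace Pool.Agent.D0H96.UR

open Chain

/-- One side. -/
theorem side (hMP : S_MP) (hEX : S_EX) (hN2 : S_NUM2) {ε s : ℝ} (R : ℕ) {T : ℝ} (hT : 0 ≤ T)
    (I : Finset ℤ) (hI : 0 < I.card) (hs : 0 < s) (ha : ∀ x ∈ I, pr R T {η : Cfg | |(η x : ℝ)| ≤ s} ≤ ε) :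
    pr R T {η : Cfg | s < |(η 0 : ℝ)| ∧ ∀ x ∈ I, 0 ≤ η 0 * η x} ≤
      2 * ε + 12 * Real.exp (4 * T) / (s ^ 2 * I.card) := by
  have hI' : (0 : ℝ) < I.card := by exact_mod_cast hI
  refine (pr_union hMP hEX (E₁ := {η : Cfg | (I.card : ℝ) / 2 ≤ ∑ x ∈ I, ind {ξ : Cfg | |(ξ x : ℝ)| ≤ s} η})
    (E₂ := {η : Cfg | s * (I.card / 2) ≤ |∑ x ∈ I, (η x : ℝ)|}) ?_ R hT).trans (add_le_add ?_ ?_)
  · rintro η ⟨h1, h2⟩
    rcases same_sign s hs.le η I h1 h2 with h | h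
    · left
      show (I.card : ℝ) / 2 ≤ ∑ x ∈ I, ind {ξ : Cfg | |(ξ x : ℝ)| ≤ s} η
      refine h.trans (le_of_eq (Finset.sum_congr rfl fun x _ => ?_))
      by_cases h3 : |(η x : ℝ)| ≤ s
      · rw [ind_of_mem (E := {ξ : ℤ → ℤ | |(ξ x : ℝ)| ≤ s}) h3, ind_of_mem (E := {ξ : Cfg | |(ξ x : ℝ)| ≤ s}) h3]
      · rw [ind_of_notMem (E := {ξ : ℤ → ℤ | |(ξ x : ℝ)| ≤ s}) h3, ind_of_notMem (E := {ξ : Cfg | |(ξ x : ℝ)| ≤ s}) h3]
    · right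
      exact h
  · have h1 := pr_le_sum hMP hEX I (fun _ => 2 / (I.card : ℝ)) (fun x => {ξ : Cfg | |(ξ x : ℝ)| ≤ s})
      {η : Cfg | (I.card : ℝ) / 2 ≤ ∑ x ∈ I, ind {ξ : Cfg | |(ξ x : ℝ)| ≤ s} η} (fun η => by
        rw [← Finset.mul_sum]
        by_cases h : η ∈ {η : Cfg | (I.card : ℝ) / 2 ≤ ∑ x ∈ I, ind {ξ : Cfg | |(ξ x : ℝ)| ≤ s} η}
        · rw [ind_of_mem h]
          have h2 : (I.card : ℝ) / 2 ≤ ∑ x ∈ I, ind {ξ : Cfg | |(ξ x : ℝ)| ≤ s} η := h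
          rw [div_mul_eq_mul_div, le_div_iff₀ hI']
          linarith
        · rw [ind_of_notMem h]
          exact mul_nonneg (by positivity) (Finset.sum_nonneg fun _ _ => ind_nonneg _ _)) R hT
    refine h1.trans ?_
    rw [← Finset.mul_sum]
    have h2 : ∑ x ∈ I, pr R T {ξ : Cfg | |(ξ x : ℝ)| ≤ s} ≤ I.card * ε := by
      refine (Finset.sum_le_sum ha).trans (le_of_eq ?_)
      rw [Finset.sum_const, nsmul_eq_mul]
    calc 2 / (I.card : ℝ) * ∑ x ∈ I, pr R T {ξ : Cfg | |(ξ x : ℝ)| ≤ s} ≤ 2 / (I.card : ℝ) * (I.card * ε) :=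
          mul_le_mul_of_nonneg_left h2 (by positivity)
      _ = 2 * ε := by field_simp
  · have h1 := hN2 R T (4 / (s ^ 2 * (I.card : ℝ) ^ 2)) I {η : Cfg | s * (I.card / 2) ≤ |∑ x ∈ I, (η x : ℝ)|} hT
      (by positivity) (fun η hη => by
        have h2 : s * (I.card / 2) ≤ |∑ x ∈ I, (η x : ℝ)| := hη
        rw [div_mul_eq_mul_div, le_div_iff₀ (by positivity), one_mul, ← sq_abs (∑ x ∈ I, (η x : ℝ))]
        have h3 : (s * (I.card / 2)) ^ 2 ≤ |∑ x ∈ I, (η x : ℝ)| ^ 2 := pow_le_pow_left₀ (by positivity) h2 2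
        nlinarith)
    refine h1.trans (le_of_eq ?_)
    field_simp
    ring

theorem fv (hMP : S_MP) (hEX : S_EX) (hHK : S_HK) (hHM : S_HM) (hAL : S_AL) (hEXPB : S_EXPB) (hPER : S_PER)
    (hN1 : S_NUM1) (hN2 : S_NUM2) {ε : ℝ} (hε : 0 < ε) : ∃ c C T₀ : ℝ, 0 < c ∧ 0 < C ∧ 1 ≤ T₀ ∧ ∀ T, T₀ ≤ T →
      ∃ N L : ℕ, c * √T ≤ 2 * N + 1 ∧ 2 * L ≤ C * √T ∧ ∃ R₀ : ℕ, ∀ R : ℕ, R₀ ≤ R →
        pr R T {η : Cfg | (⇑η : ℤ → ℤ) ∉ Gd N L} ≤ ε := by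
  obtain ⟨s₀, T₀, hs₀, hT₀, hanti⟩ := anti hMP hEX hHK hHM hAL hEXPB hPER (show 0 < ε / 16 by positivity)
  obtain ⟨C₁, hC₁, hnum1⟩ := hN1
  obtain ⟨K, hK⟩ : ∃ K, K = 96 / (s₀ ^ 2 * ε) := ⟨_, rfl⟩
  obtain ⟨c, hc⟩ : ∃ c, c = s₀ * √(ε / (16 * C₁)) := ⟨_, rfl⟩
  have hK0 : 0 < K := by rw [hK]; positivity
  have hc0 : 0 < c := by rw [hc]; positivity
  have hc2 : c ^ 2 = s₀ ^ 2 * (ε / (16 * C₁)) := by rw [hc, mul_pow, Real.sq_sqrt (by positivity)]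
  refine ⟨c, 2 * K + 2, T₀, hc0, by positivity, hT₀, fun T hT => ?_⟩
  have hT1 : 1 ≤ T := hT₀.trans hT
  have hsq1 : 1 ≤ √T := by rw [Real.one_le_sqrt]; exact hT1
  have hTs : √T * √T = T := Real.mul_self_sqrt (by linarith)
  obtain ⟨N, hN⟩ : ∃ N, N = ⌊c * √T⌋₊ := ⟨_, rfl⟩
  obtain ⟨L, hL⟩ : ∃ L, L = ⌈K * √T⌉₊ := ⟨_, rfl⟩
  have hN1' : (N : ℝ) ≤ c * √T := by rw [hN]; exact Nat.floor_le (by positivity)
  have hN2' : c * √T ≤ N + 1 := by rw [hN]; exact (Nat.lt_floor_add_one _).le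
  have hL1 : K * √T ≤ L := by rw [hL]; exact Nat.le_ceil _
  have hL2 : (L : ℝ) ≤ K * √T + 1 := by
    have := Nat.ceil_lt_add_one (show 0 ≤ K * √T by positivity)
    rw [← hL] at this
    exact this.le
  have hN0 : (0 : ℝ) ≤ N := Nat.cast_nonneg N
  have hL0 : (0 : ℝ) < L := lt_of_lt_of_le (by positivity) hL1
  have hL0' : 0 < L := by exact_mod_cast hL0
  refine ⟨N, L, by linarith, by nlinarith, ⌈(L : ℝ) + 3 * √T⌉₊, fun R hR => ?_⟩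
  have hR' : (L : ℝ) + 3 * √T ≤ R := (Nat.le_ceil _).trans (by exact_mod_cast hR)
  have hT0 : 0 ≤ T := by linarith
  obtain ⟨s, hs⟩ : ∃ s, s = s₀ * Real.exp (2 * T) / √√T := ⟨_, rfl⟩
  have hs0 : 0 < s := by
    rw [hs]
    have : 0 < √√T := Real.sqrt_pos.2 (by linarith)
    positivity
  have hs2 : s ^ 2 = s₀ ^ 2 * Real.exp (4 * T) / √T := by
    rw [hs, div_pow, mul_pow, Real.sq_sqrt (Real.sqrt_nonneg _), ← Real.exp_nat_mul]
    congr 3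
    ring_nf
  have hz : ∀ x : ℤ, |x| ≤ L → pr R T {η : Cfg | |(η x : ℝ)| ≤ s} ≤ ε / 16 := by
    intro x hx
    have h1 : |(x : ℝ)| ≤ L := by exact_mod_cast hx
    have h2 := hanti T R x hT (by linarith)
    rwa [← hs] at h2
  have hcardp : (Finset.Icc (1 : ℤ) L).card = L := by rw [Int.card_Icc]; omega
  have hcardm : (Finset.Icc (-(L : ℤ)) (-1)).card = L := by rw [Int.card_Icc]; omega
  have hside : 12 * Real.exp (4 * T) / (s ^ 2 * (L : ℝ)) ≤ ε / 8 := by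
    rw [hs2]
    have e : 12 * Real.exp (4 * T) / (s₀ ^ 2 * Real.exp (4 * T) / √T * (L : ℝ)) = 12 * √T / (s₀ ^ 2 * L) := by
      have := Real.exp_pos (4 * T)
      field_simp
    rw [e, div_le_iff₀ (by positivity)]
    have h1 : s₀ ^ 2 * (K * √T) ≤ s₀ ^ 2 * L := mul_le_mul_of_nonneg_left hL1 (by positivity)
    have h2 : s₀ ^ 2 * (K * √T) = 96 / ε * √T := by
      rw [hK]
      field_simp
    rw [h2] at h1
    have h3 : ε / 8 * (96 / ε * √T) ≤ ε / 8 * (s₀ ^ 2 * L) := mul_le_mul_of_nonneg_left h1 (by positivity)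
    have h4 : ε / 8 * (96 / ε * √T) = 12 * √T := by field_simp; norm_num
    linarith
  have hp := side hMP hEX hN2 (ε := ε / 16) R hT0 (Finset.Icc (1 : ℤ) L) (by rw [hcardp]; exact hL0') hs0
    (fun x hx => hz x (by rw [Finset.mem_Icc] at hx; rw [abs_of_nonneg (by omega)]; omega))
  have hm := side hMP hEX hN2 (ε := ε / 16) R hT0 (Finset.Icc (-(L : ℤ)) (-1)) (by rw [hcardm]; exact hL0') hs0
    (fun x hx => hz x (by rw [Finset.mem_Icc] at hx; rw [abs_of_nonpos (by omega)]; omega))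
  rw [hcardp] at hp
  rw [hcardm] at hm
  have hg := hnum1 R T (N / s ^ 2) (Finset.Ico (-(N : ℤ)) N)
    {η : Cfg | 1 ≤ (N / s ^ 2 : ℝ) * ∑ x ∈ Finset.Ico (-(N : ℤ)) N, ((η (x + 1) : ℝ) - (η x : ℝ)) ^ 2} hT0
    (by positivity) (fun η hη => hη)
  have hg2 : (N / s ^ 2 : ℝ) * ((Finset.Ico (-(N : ℤ)) N).card * (C₁ * Real.exp (4 * T) / ((1 + T) * √(1 + T)))) ≤
      ε / 8 := by
    have hcard : ((Finset.Ico (-(N : ℤ)) N).card : ℝ) = 2 * N := by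
      rw [Int.card_Ico]
      have : ((N : ℤ) - -(N : ℤ)).toNat = 2 * N := by omega
      rw [this]
      push_cast
      ring
    rw [hcard, hs2]
    have hE := Real.exp_pos (4 * T)
    have h1 : C₁ * Real.exp (4 * T) / ((1 + T) * √(1 + T)) ≤ C₁ * Real.exp (4 * T) / (T * √T) := by
      refine div_le_div_of_nonneg_left (by positivity) (by positivity) ?_
      exact mul_le_mul (by linarith) (Real.sqrt_le_sqrt (by linarith)) (Real.sqrt_nonneg _) (by linarith)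
    calc (N : ℝ) / (s₀ ^ 2 * Real.exp (4 * T) / √T) * (2 * N * (C₁ * Real.exp (4 * T) / ((1 + T) * √(1 + T))))
        ≤ (N : ℝ) / (s₀ ^ 2 * Real.exp (4 * T) / √T) * (2 * N * (C₁ * Real.exp (4 * T) / (T * √T))) := by gcongr
      _ = 2 * C₁ / s₀ ^ 2 * ((N : ℝ) ^ 2 / T) := by field_simp
      _ ≤ 2 * C₁ / s₀ ^ 2 * c ^ 2 := by
          refine mul_le_mul_of_nonneg_left ?_ (by positivity)
          rw [div_le_iff₀ (by linarith)]
          have h2 : (N : ℝ) ^ 2 ≤ (c * √T) ^ 2 := pow_le_pow_left₀ hN0 hN1' 2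
          rw [mul_pow, Real.sq_sqrt hT0] at h2
          exact h2
      _ = ε / 8 := by
          rw [hc2]
          field_simp
          norm_num
  have hsub : {η : Cfg | (⇑η : ℤ → ℤ) ∉ Gd N L} ⊆ {η : Cfg | |(η 0 : ℝ)| ≤ s} ∪
      ({η : Cfg | 1 ≤ (N / s ^ 2 : ℝ) * ∑ x ∈ Finset.Ico (-(N : ℤ)) N, ((η (x + 1) : ℝ) - (η x : ℝ)) ^ 2} ∪
      ({η : Cfg | s < |(η 0 : ℝ)| ∧ ∀ x ∈ Finset.Icc (1 : ℤ) L, 0 ≤ η 0 * η x} ∪
        {η : Cfg | s < |(η 0 : ℝ)| ∧ ∀ x ∈ Finset.Icc (-(L : ℤ)) (-1), 0 ≤ η 0 * η x})) := by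
    intro η hη
    by_contra hcon
    simp only [mem_union, mem_setOf_eq, not_or] at hcon
    obtain ⟨h1, h2, h3, h4⟩ := hcon
    rw [not_le] at h1 h2
    apply hη
    refine ⟨fun x hx => ?_, ?_, ?_⟩
    · have h5 : ((η x : ℝ) - (η 0 : ℝ)) ^ 2 < s ^ 2 := by
        have h6 := diff_sq (fun x => (η x : ℝ)) N hx
        have h7 : (N : ℝ) * ∑ y ∈ Finset.Ico (-(N : ℤ)) N, ((η (y + 1) : ℝ) - (η y : ℝ)) ^ 2 < s ^ 2 := by
          rw [div_mul_eq_mul_div, div_lt_one (by positivity)] at h2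
          exact h2
        exact lt_of_le_of_lt h6 h7
      have h6 : |(η x : ℝ) - (η 0 : ℝ)| < s := abs_lt_of_sq_lt_sq h5 hs0.le
      have h7 : (0 : ℝ) < (η 0 : ℝ) * (η x : ℝ) := by
        rw [abs_lt] at h6
        rcases le_total 0 (η 0 : ℝ) with h8 | h8
        · rw [abs_of_nonneg h8] at h1
          exact mul_pos (by linarith) (by linarith)
        · rw [abs_of_nonpos h8] at h1
          exact mul_pos_of_neg_of_neg (by linarith) (by linarith)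
      exact_mod_cast h7
    · by_contra hno
      push Not at hno
      exact h3 ⟨h1, fun x hx => by
        rw [Finset.mem_Icc] at hx
        exact hno x (by omega) (by omega)⟩
    · by_contra hno
      push Not at hno
      exact h4 ⟨h1, fun x hx => by
        rw [Finset.mem_Icc] at hx
        exact hno x (by omega) (by omega)⟩
  have h00 := hz 0 (by simp)
  have hu1 := pr_union hMP hEX hsub R hT0
  have hu2 := pr_union hMP hEX (le_refl ({η : Cfg | 1 ≤ (N / s ^ 2 : ℝ) *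
    ∑ x ∈ Finset.Ico (-(N : ℤ)) N, ((η (x + 1) : ℝ) - (η x : ℝ)) ^ 2} ∪
      ({η : Cfg | s < |(η 0 : ℝ)| ∧ ∀ x ∈ Finset.Icc (1 : ℤ) L, 0 ≤ η 0 * η x} ∪
        {η : Cfg | s < |(η 0 : ℝ)| ∧ ∀ x ∈ Finset.Icc (-(L : ℤ)) (-1), 0 ≤ η 0 * η x}))) R hT0
  have hu3 := pr_union hMP hEX (le_refl ({η : Cfg | s < |(η 0 : ℝ)| ∧ ∀ x ∈ Finset.Icc (1 : ℤ) L, 0 ≤ η 0 * η x} ∪
        {η : Cfg | s < |(η 0 : ℝ)| ∧ ∀ x ∈ Finset.Icc (-(L : ℤ)) (-1), 0 ≤ η 0 * η x})) R hT0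
  linarith

end Pool.Agent.D0H96.UR
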