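import Pool.Agent.D0H96.UR.Stm2

/-!
Project UR: the initial configurations and the chains between them.
-/

set_option autoImplicit false

open Filter Topology MeasureTheory Set

namespace Pool.Agent.D0H96.UR

open Chain

theorem ini_apply (R : ℕ) (S : Finset ℤ) (k : ℤ) :
    ini R S k = if k ∈ Finset.Icc (-(R : ℤ)) R then (if k ∈ S then 1 else -1) else 0 := by
  unfold ini
  rw [Finsupp.finsetSum_apply]
  by_cases h : k ∈ Finset.Icc (-(R : ℤ)) R
  · rw [if_pos h, Finset.sum_eq_single k (fun b _ hb => Finsupp.single_eq_of_ne (Ne.symm hb))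
      (fun h' => (h' h).elim), Finsupp.single_eq_same]
  · rw [if_neg h]
    exact Finset.sum_eq_zero fun b hb => Finsupp.single_eq_of_ne (fun e => h (by rw [e]; exact hb))

theorem ini_mono (R : ℕ) {S S' : Finset ℤ} (h : S ⊆ S') : ini R S ≤ ini R S' := by
  intro k
  rw [ini_apply, ini_apply]
  split_ifs with h1 h2 h3 h3
  · exact le_rfl
  · exact (h3 (h h2)).elim
  · norm_num
  · exact le_rfl
  · exact le_rfl

theorem Lw_sum {ι : Type} (a : ℤ → ℝ) (s : Finset ι) (f : ι → Cfg) : Lw a (∑ i ∈ s, f i) = ∑ i ∈ s, Lw a (f i) := by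
  classical
  induction s using Finset.induction_on with
  | empty => simp [Lw]
  | insert b s hb ih => rw [Finset.sum_insert hb, Finset.sum_insert hb, Lw_add, ih]

theorem Lw_ini (a : ℤ → ℝ) (R : ℕ) (S : Finset ℤ) :
    Lw a (ini R S) = ∑ k ∈ Finset.Icc (-(R : ℤ)) R, (if k ∈ S then (1 : ℝ) else -1) * a k := by
  unfold ini
  rw [Lw_sum]
  refine Finset.sum_congr rfl fun k _ => ?_
  rw [Lw_single]
  split_ifs <;> simp

/-- The sum over the difference of two sets. -/
theorem Lw_diff (a : ℤ → ℝ) (R : ℕ) {S S' D : Finset ℤ} (hS : S ⊆ S') (hD : D ⊆ S' \ S)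
    (hA : S' \ S ⊆ Finset.Icc (-(R : ℤ)) R) (ha : ∀ k ∈ S' \ S, 0 ≤ a k) {c : ℝ} (hc : ∀ k ∈ D, c ≤ a k) :
    2 * (D.card * c) ≤ Lw a (ini R S' - ini R S) := by
  rw [Lw_sub, Lw_ini, Lw_ini, ← Finset.sum_sub_distrib]
  have e : ∀ k ∈ Finset.Icc (-(R : ℤ)) R, (if k ∈ S' then (1 : ℝ) else -1) * a k - (if k ∈ S then (1 : ℝ) else -1) * a k =
      if k ∈ S' \ S then 2 * a k else 0 := by
    intro k _
    by_cases h1 : k ∈ S'
    · by_cases h2 : k ∈ S
      · rw [if_pos h1, if_pos h2, if_neg (fun h => (Finset.mem_sdiff.1 h).2 h2)]; ring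
      · rw [if_pos h1, if_neg h2, if_pos (Finset.mem_sdiff.2 ⟨h1, h2⟩)]; ring
    · rw [if_neg h1, if_neg (fun h => h1 (hS h)), if_neg (fun h => h1 (Finset.mem_sdiff.1 h).1)]; ring
  rw [Finset.sum_congr rfl e, Finset.sum_ite_mem, Finset.inter_eq_right.2 hA]
  calc 2 * (D.card * c) = ∑ k ∈ D, 2 * c := by rw [Finset.sum_const, nsmul_eq_mul]; ring
    _ ≤ ∑ k ∈ D, 2 * a k := Finset.sum_le_sum fun k hk => by linarith [hc k hk]
    _ ≤ ∑ k ∈ S' \ S, 2 * a k := Finset.sum_le_sum_of_subset_of_nonneg hD fun k hk _ => by linarith [ha k hk]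

/-- The set of the red coins at the stage `k` of a maximal chain. -/
def stg {n : ℕ} (emb : Fin n ↪ ℤ) (S₂ : Finset ℤ) (π : Equiv.Perm (Fin n)) (k : ℕ) : Finset ℤ :=
  (Finset.univ.filter fun i => ((π i : Fin n) : ℕ) < k).map emb ∪ S₂

theorem stg_mono {n : ℕ} (emb : Fin n ↪ ℤ) (S₂ : Finset ℤ) (π : Equiv.Perm (Fin n)) {k l : ℕ} (h : k ≤ l) :
    stg emb S₂ π k ⊆ stg emb S₂ π l := by
  unfold stg
  refine Finset.union_subset_union_left (Finset.map_subset_map.2 fun i hi => ?_)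
  rw [Finset.mem_filter] at hi ⊢
  exact ⟨hi.1, by omega⟩

theorem card_between {n : ℕ} (π : Equiv.Perm (Fin n)) {k m : ℕ} (h : k + m ≤ n) :
    (Finset.univ.filter fun i : Fin n => k ≤ ((π i : Fin n) : ℕ) ∧ ((π i : Fin n) : ℕ) < k + m).card = m := by
  have e : ((Finset.univ.filter fun i : Fin n => k ≤ ((π i : Fin n) : ℕ) ∧ ((π i : Fin n) : ℕ) < k + m).map
      (π.toEmbedding.trans Fin.valEmbedding)) = Finset.Ico k (k + m) := by
    ext j
    rw [Finset.mem_map, Finset.mem_Ico]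
    constructor
    · rintro ⟨i, hi, rfl⟩
      rw [Finset.mem_filter] at hi
      exact hi.2
    · intro hj
      refine ⟨π.symm ⟨j, by omega⟩, ?_, ?_⟩
      · rw [Finset.mem_filter, Equiv.apply_symm_apply]
        exact ⟨Finset.mem_univ _, hj⟩
      · show ((π (π.symm ⟨j, _⟩) : Fin n) : ℕ) = j
        rw [Equiv.apply_symm_apply]
  have h2 := congrArg Finset.card e
  rw [Finset.card_map, Nat.card_Ico] at h2
  omega

theorem Lw_stg {n : ℕ} (emb : Fin n ↪ ℤ) (S₂ : Finset ℤ) (π : Equiv.Perm (Fin n)) (R : ℕ)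
    (hR : ∀ i, emb i ∈ Finset.Icc (-(R : ℤ)) R) (hS₂ : ∀ i, emb i ∉ S₂) (a : ℤ → ℝ) {c : ℝ} (hc : 0 ≤ c)
    (ha : ∀ i, c ≤ a (emb i)) {k m : ℕ} (h : k + m ≤ n) :
    2 * (m * c) ≤ Lw a (ini R (stg emb S₂ π (k + m)) - ini R (stg emb S₂ π k)) := by
  have hsub : stg emb S₂ π (k + m) \ stg emb S₂ π k ⊆ Finset.univ.map emb := by
    intro x hx
    rw [Finset.mem_sdiff] at hx
    unfold stg at hx
    rw [Finset.mem_union, Finset.mem_union] at hx
    rcases hx.1 with h1 | h1
    · exact Finset.map_subset_map.2 (Finset.subset_univ _) h1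
    · exact (hx.2 (Or.inr h1)).elim
  have key := Lw_diff a R (stg_mono emb S₂ π (Nat.le_add_right k m))
    (D := (Finset.univ.filter fun i : Fin n => k ≤ ((π i : Fin n) : ℕ) ∧ ((π i : Fin n) : ℕ) < k + m).map emb)
    (fun x hx => by
      rw [Finset.mem_map] at hx
      obtain ⟨i, hi, rfl⟩ := hx
      rw [Finset.mem_filter] at hi
      rw [Finset.mem_sdiff]
      unfold stg
      constructor
      · exact Finset.mem_union_left _ (Finset.mem_map_of_mem _ (Finset.mem_filter.2 ⟨Finset.mem_univ _, hi.2.2⟩))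
      · intro h1
        rw [Finset.mem_union] at h1
        rcases h1 with h1 | h1
        · rw [Finset.mem_map] at h1
          obtain ⟨j, hj, hji⟩ := h1
          rw [emb.injective hji] at hj
          rw [Finset.mem_filter] at hj
          omega
        · exact hS₂ i h1)
    (fun x hx => by
      obtain ⟨i, _, rfl⟩ := Finset.mem_map.1 (hsub hx)
      exact hR i)
    (fun x hx => by
      obtain ⟨i, _, rfl⟩ := Finset.mem_map.1 (hsub hx)
      exact hc.trans (ha i))
    (c := c) (fun x hx => by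
      obtain ⟨i, _, rfl⟩ := Finset.mem_map.1 hx
      exact ha i)
  rw [Finset.card_map, card_between π h] at key
  exact key

end Pool.Agent.D0H96.UR
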