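import Pool.Agent.D0H96.UR.Tr

/-!
Project UR: second moments.
-/

set_option autoImplicit false

open Filter Topology MeasureTheory Set

namespace Pool.Agent.D0H96.UR

open Chain

theorem av_eq (c : ℤ →₀ ℝ) (t : ℝ) (k : ℤ) : av c t k = Real.exp (2 * t) * c.sum fun j y => y * hk t (k - j) := rfl

theorem av_add (c c' : ℤ →₀ ℝ) (t : ℝ) (k : ℤ) : av (c + c') t k = av c t k + av c' t k := by
  rw [av_eq, av_eq, av_eq, Finsupp.sum_add_index' (fun j => by simp) (fun j y y' => by ring)]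
  ring

theorem av_single (j : ℤ) (y t : ℝ) (k : ℤ) : av (Finsupp.single j y) t k = Real.exp (2 * t) * (y * hk t (k - j)) := by
  rw [av_eq, Finsupp.sum_single_index (by simp)]

theorem av_zero (c : ℤ →₀ ℝ) (h0 : ∀ k, hk 0 k = if k = 0 then 1 else 0) (k : ℤ) : av c 0 k = c k := by
  unfold av
  rw [mul_zero, Real.exp_zero, one_mul]
  simp only [h0]
  have e : ∀ j ∈ c.support, c j * (if k - j = 0 then (1 : ℝ) else 0) = if k = j then c j else 0 := by
    intro j _
    by_cases h : k = j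
    · rw [if_pos (by omega), if_pos h, mul_one]
    · rw [if_neg (by omega), if_neg h, mul_zero]
  rw [Finset.sum_congr rfl e, Finset.sum_ite_eq]
  split_ifs with h
  · rfl
  · exact (Finsupp.notMem_support_iff.1 h).symm

theorem av_deriv (hd : ∀ t k, HasDerivAt (fun s => hk s k) (hk t (k - 1) + hk t (k + 1) - 2 * hk t k) t)
    (c : ℤ →₀ ℝ) (t : ℝ) (k : ℤ) : HasDerivAt (fun s => av c s k) (av c t (k - 1) + av c t (k + 1)) t := by
  unfold av
  have h1 : HasDerivAt (fun t : ℝ => Real.exp (2 * t)) (Real.exp (2 * t) * 2) t := by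
    have := ((hasDerivAt_id t).const_mul 2).exp
    simpa using this
  have h2 : HasDerivAt (fun s => ∑ j ∈ c.support, c j * hk s (k - j))
      (∑ j ∈ c.support, c j * (hk t (k - j - 1) + hk t (k - j + 1) - 2 * hk t (k - j))) t :=
    HasDerivAt.fun_sum fun j _ => (hd t (k - j)).const_mul (c j)
  have h3 := h1.mul h2
  have e : Real.exp (2 * t) * ∑ j ∈ c.support, c j * hk t (k - 1 - j) +
      Real.exp (2 * t) * ∑ j ∈ c.support, c j * hk t (k + 1 - j) =
      Real.exp (2 * t) * 2 * (∑ j ∈ c.support, c j * hk t (k - j)) + Real.exp (2 * t) *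
        ∑ j ∈ c.support, c j * (hk t (k - j - 1) + hk t (k - j + 1) - 2 * hk t (k - j)) := by
    rw [← mul_add, mul_assoc, ← mul_add]
    congr 1
    rw [← Finset.sum_add_distrib, Finset.mul_sum, ← Finset.sum_add_distrib]
    refine Finset.sum_congr rfl fun j _ => ?_
    rw [show k - 1 - j = k - j - 1 by ring, show k + 1 - j = k - j + 1 by ring]
    ring
  rw [e]
  exact h3

theorem Lw_nuc (a : ℤ → ℝ) (k : ℤ) (η : Cfg) :
    Lw a (nuc k η) = Lw a η + ((η k).sign : ℝ) * (a (k - 1) + a (k + 1)) := by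
  unfold nuc
  rw [Lw_add, Lw_add, Lw_single, Lw_single]
  ring

theorem Nw_nuc {V : ℤ → ℝ} (hV : ∀ k, 0 ≤ V k) (k : ℤ) (η : Cfg) :
    Nw V (nuc k η) ≤ Nw V η + (V (k - 1) + V (k + 1)) := by
  unfold nuc
  have h1 := Nw_add hV (η + Finsupp.single (k - 1) (η k).sign) (Finsupp.single (k + 1) (η k).sign)
  have h2 := Nw_add hV η (Finsupp.single (k - 1) (η k).sign)
  rw [Nw_single] at h1 h2
  have h3 : |((η k).sign : ℝ)| ≤ 1 := by
    rcases lt_trichotomy (η k) 0 with h | h | h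
    · rw [Int.sign_eq_neg_one_of_neg h]; simp
    · rw [h]; simp
    · rw [Int.sign_eq_one_of_pos h]; simp
  have h4 := mul_le_mul_of_nonneg_right h3 (hV (k - 1))
  have h5 := mul_le_mul_of_nonneg_right h3 (hV (k + 1))
  linarith

theorem abs_mul_sign (y : ℤ) : |(y : ℝ)| * ((y.sign : ℤ) : ℝ) = y := by
  rcases lt_trichotomy y 0 with h | h | h
  · have h' : (y : ℝ) < 0 := by exact_mod_cast h
    rw [Int.sign_eq_neg_one_of_neg h, abs_of_neg h']; push_cast; ring
  · rw [h]; simp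
  · have h' : (0 : ℝ) < y := by exact_mod_cast h
    rw [Int.sign_eq_one_of_pos h, abs_of_pos h']; push_cast; ring

theorem sign_sq {y : ℤ} (hy : y ≠ 0) : ((y.sign : ℤ) : ℝ) ^ 2 = 1 := by
  rcases lt_trichotomy y 0 with h | h | h
  · rw [Int.sign_eq_neg_one_of_neg h]; norm_num
  · exact (hy h).elim
  · rw [Int.sign_eq_one_of_pos h]; norm_num

/-- The generator of the square of a linear function plus a weight. -/
theorem gen_quad (a V : ℤ → ℝ) (hV : ∀ k, 0 ≤ V k) (η : Cfg) :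
    UC.gen (fun η => Lw a η ^ 2 + Nw V η) η ≤ 2 * Lw a η * Lw (fun k => a (k - 1) + a (k + 1)) η +
      Nw (fun k => V (k - 1) + V (k + 1) + (a (k - 1) + a (k + 1)) ^ 2) η := by
  rw [gen_UC]
  have e : 2 * Lw a η * Lw (fun k => a (k - 1) + a (k + 1)) η +
      Nw (fun k => V (k - 1) + V (k + 1) + (a (k - 1) + a (k + 1)) ^ 2) η =
      ∑ k ∈ η.support, (2 * Lw a η * ((η k : ℝ) * (a (k - 1) + a (k + 1))) +
        |(η k : ℝ)| * (V (k - 1) + V (k + 1) + (a (k - 1) + a (k + 1)) ^ 2)) := by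
    rw [Finset.sum_add_distrib, ← Finset.mul_sum]
    rfl
  rw [e]
  refine Finset.sum_le_sum fun k hk => ?_
  have hk' : η k ≠ 0 := Finsupp.mem_support_iff.1 hk
  rw [Lw_nuc]
  have h1 := Nw_nuc hV k η
  have h2 := abs_mul_sign (η k)
  have h3 := sign_sq hk'
  have h4 : |(η k : ℝ)| * ((Lw a η + ((η k).sign : ℝ) * (a (k - 1) + a (k + 1))) ^ 2 + Nw V (nuc k η) -
      (Lw a η ^ 2 + Nw V η)) = 2 * Lw a η * ((|(η k : ℝ)| * ((η k).sign : ℝ)) * (a (k - 1) + a (k + 1))) +
      |(η k : ℝ)| * (((η k).sign : ℝ) ^ 2 * (a (k - 1) + a (k + 1)) ^ 2 + (Nw V (nuc k η) - Nw V η)) := by ring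
  rw [h4, h2, h3]
  have h5 := mul_le_mul_of_nonneg_left (show 1 * (a (k - 1) + a (k + 1)) ^ 2 + (Nw V (nuc k η) - Nw V η) ≤
    V (k - 1) + V (k + 1) + (a (k - 1) + a (k + 1)) ^ 2 by linarith) (abs_nonneg (η k : ℝ))
  linarith

/-- Second moments: the bound of the probability of an event on which a sum of squares is at least one. -/
theorem quad (hMP : S_MP) (hEX : S_EX)
    (hd : ∀ t k, HasDerivAt (fun s => hk s k) (hk t (k - 1) + hk t (k + 1) - 2 * hk t k) t)
    (h0 : ∀ k, hk 0 k = if k = 0 then 1 else 0) {ι : Type} (A : Finset ι) (κ : ℝ) (hκ : 0 ≤ κ) (c : ι → ℤ →₀ ℝ)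
    (V : ι → ℝ → ℤ → ℝ) (hV0 : ∀ i k, V i 0 k = 0) (hV : ∀ i t k, 0 ≤ t → 0 ≤ V i t k)
    (hVc : ∀ i k, ContinuousOn (fun t => V i t k) (Ici 0))
    (hVd : ∀ i k t, 0 < t → HasDerivAt (fun t => V i t k)
      (V i t (k - 1) + V i t (k + 1) + (av (c i) t (k - 1) + av (c i) t (k + 1)) ^ 2) t)
    (E : Set Cfg) (hE : ∀ η ∈ E, 1 ≤ κ * ∑ i ∈ A, Lw (c i) η ^ 2) {T : ℝ} (hT : 0 ≤ T) (η : Cfg) :
    UC.P (ind E) T η ≤ κ * ∑ i ∈ A, (Lw (av (c i) T) η ^ 2 + Nw (V i T) η) := by
  have havc : ∀ i k, Continuous fun t => av (c i) t k := fun i k =>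
    continuous_iff_continuousAt.2 fun t => (av_deriv hd (c i) t k).continuousAt
  refine (P_sol hEX UC (ind_bdd E)).le hMP (I := univ) (fun _ _ _ _ => mem_univ _) hT (B := 0)
    (g := fun t η => κ * ∑ i ∈ A, (Lw (av (c i) t) η ^ 2 + Nw (V i t) η)) (fun η _ => ?_) (fun η _ s hs => ?_)
    (fun η _ s hs => ?_) (fun η _ => ?_) η (mem_univ _)
  · refine continuousOn_const.mul (continuousOn_finsetSum _ fun i _ => ?_)
    refine ContinuousOn.add (ContinuousOn.pow ?_ 2) ?_
    · unfold Lw Finsupp.sum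
      exact continuousOn_finsetSum _ fun k _ => continuousOn_const.mul (havc i k).continuousOn
    · unfold Nw Finsupp.sum
      exact continuousOn_finsetSum _ fun k _ => continuousOn_const.mul ((hVc i k).mono Icc_subset_Ici_self)
  · refine ⟨κ * ∑ i ∈ A, (2 * Lw (av (c i) s) η * Lw (fun k => av (c i) s (k - 1) + av (c i) s (k + 1)) η +
      Nw (fun k => V i s (k - 1) + V i s (k + 1) + (av (c i) s (k - 1) + av (c i) s (k + 1)) ^ 2) η), ?_, ?_⟩
    · refine HasDerivAt.const_mul κ (HasDerivAt.fun_sum fun i _ => ?_)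
      refine HasDerivAt.add ?_ ?_
      · have h1 : HasDerivAt (fun t => Lw (av (c i) t) η) (Lw (fun k => av (c i) s (k - 1) + av (c i) s (k + 1)) η) s := by
          unfold Lw Finsupp.sum
          exact HasDerivAt.fun_sum fun k _ => (av_deriv hd (c i) s k).const_mul _
        have h2 := h1.fun_pow 2
        have e2 : 2 * Lw (av (c i) s) η * Lw (fun k => av (c i) s (k - 1) + av (c i) s (k + 1)) η =
            ((2 : ℕ) : ℝ) * Lw (av (c i) s) η ^ (2 - 1) *
              Lw (fun k => av (c i) s (k - 1) + av (c i) s (k + 1)) η := by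
          norm_num
        rw [e2]
        exact h2
      · unfold Nw Finsupp.sum
        exact HasDerivAt.fun_sum fun k _ => (hVd i k s hs.1).const_mul _
    · have e : UC.gen (fun η => κ * ∑ i ∈ A, (Lw (av (c i) s) η ^ 2 + Nw (V i s) η)) η =
          κ * ∑ i ∈ A, UC.gen (fun η => Lw (av (c i) s) η ^ 2 + Nw (V i s) η) η := by
        unfold Chain.gen
        rw [Finset.sum_comm, Finset.mul_sum]
        refine Finset.sum_congr rfl fun x _ => ?_
        rw [Finset.sum_sub_distrib]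
        ring
      show UC.gen (fun η => κ * ∑ i ∈ A, (Lw (av (c i) s) η ^ 2 + Nw (V i s) η)) η ≤ _
      rw [e]
      exact mul_le_mul_of_nonneg_left (Finset.sum_le_sum fun i _ => gen_quad _ _ (fun k => hV i s k hs.1.le) η) hκ
  · exact mul_nonneg hκ (Finset.sum_nonneg fun i _ => add_nonneg (sq_nonneg _) (Nw_nonneg (fun k => hV i s k hs.1) _))
  · have h1 : ∀ i, Lw (av (c i) 0) η ^ 2 + Nw (V i 0) η = Lw (c i) η ^ 2 := by
      intro i
      have e1 : av (c i) 0 = c i := by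
        funext k
        exact av_zero (c i) h0 k
      have e2 : Nw (V i 0) η = 0 := by
        unfold Nw Finsupp.sum
        exact Finset.sum_eq_zero fun k _ => by
          show |(η k : ℝ)| * V i 0 k = 0
          rw [hV0, mul_zero]
      rw [e1, e2, add_zero]
    simp only [h1]
    by_cases h : η ∈ E
    · rw [ind_of_mem h]
      exact hE η h
    · rw [ind_of_notMem h]
      exact mul_nonneg hκ (Finset.sum_nonneg fun i _ => sq_nonneg _)

end Pool.Agent.D0H96.UR
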