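import Mathlib

/-!
Project UR (helper96), MP_5d2315_pr: the two-type competing urn scheme on `ℤ`; the width of the interval of the
origin is of order `√t`. Statements of the modules. All of them are about explicit objects, `Mathlib` only.
-/

set_option autoImplicit false

open Filter Topology MeasureTheory Set

namespace Pool.Agent.D0H96.UR

/-! ### Linear systems `u_x' = ∑ u_(s x) - r_x u_x` on a countable set -/

/-- A linear system: from `x` one can move to `act s x`, `s ∈ mv x`; `r x` is the rate of killing. -/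
structure Sys (X σ : Type) where
  act : σ → X → X
  mv : X → Finset σ
  r : X → ℝ

/-- The right hand side of the system. -/
noncomputable def rhs {X σ : Type} (S : Sys X σ) (w : X → ℝ) (x : X) : ℝ :=
  (∑ s ∈ S.mv x, w (S.act s x)) - S.r x * w x

/-- Linear growth. -/
structure Grow {X σ : Type} (S : Sys X σ) (φ : X → ℝ) (b : ℝ) : Prop where
  b0 : 0 ≤ b
  r0 : ∀ x, 0 ≤ S.r x
  phi0 : ∀ x, 0 ≤ φ x
  card : ∀ x, ((S.mv x).card : ℝ) ≤ φ x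
  drift : ∀ x, ∑ s ∈ S.mv x, φ (S.act s x) ≤ (S.r x + b) * φ x

/-- MP: the maximum principle for subsolutions that are bounded above, on an invariant set `I`.

Proof. Let `B' = max B 0`. For all `M > 0` and `n`, for all `x ∈ I` and `t`,
`w t x ≤ B' (exp (b t) φ x / M + exp (2 M t) 2 ^ (-n))`, by induction on `n`; then `n → ∞`, `M → ∞`.
`n = 0` is clear, and so is the case `φ x ≥ M`. If `φ x < M` let `z` be the right hand side for `n + 1`, `y = w - z`;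
then `y' ≤ - r y` (the moves: `∑ φ (act s x) ≤ (r + b) φ x`, `card ≤ φ x < M`), `y 0 ≤ 0`, so `y ≤ 0`
(`exp (r t) y` is antitone). -/
def S_MP : Prop := ∀ (X σ : Type) (S : Sys X σ) (φ : X → ℝ) (b : ℝ) (I : Set X) (T B : ℝ) (w : ℝ → X → ℝ),
  Grow S φ b → (∀ x ∈ I, ∀ s ∈ S.mv x, S.act s x ∈ I) → 0 ≤ T →
  (∀ x ∈ I, ContinuousOn (fun t => w t x) (Icc 0 T)) →
  (∀ x ∈ I, ∀ t ∈ Ioo 0 T, ∃ d, HasDerivAt (fun t => w t x) d t ∧ d ≤ rhs S (w t) x) →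
  (∀ x ∈ I, ∀ t ∈ Icc 0 T, w t x ≤ B) → (∀ x ∈ I, w 0 x ≤ 0) →
  ∀ x ∈ I, ∀ t ∈ Icc 0 T, w t x ≤ 0

/-- EX: existence of a solution with a source `G`.

Proof. `Q 0 t x = exp (-r t) (F x + ∫ u in 0..t, exp (r u) G u x)`,
`Q (n+1) t x = exp (-r t) (F x + ∫ u in 0..t, exp (r u) (G u x + ∑ s ∈ mv x, Q n u (act s x)))`. By induction `Q n` is
continuous in `t`, `|Q n t x| ≤ (A + G₀ t) exp ((β + γ) t)` (as `card ≤ r + β`), and for `m ≥ n`, `t ≤ T`,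
`|Q m t x - Q n t x| ≤ B' (exp (b t) φ x / M + exp (2 M t) 2 ^ (-n))` as in MP. So for each `x` the `Q n` and their
derivatives `G + ∑ Q n (act s x) - r Q (n+1)` converge uniformly on `[0, T]`. -/
def S_EX : Prop := ∀ (X σ : Type) (S : Sys X σ) (φ : X → ℝ) (b β γ A G₀ : ℝ) (F : X → ℝ) (G : ℝ → X → ℝ),
  Grow S φ b → 0 ≤ β → 0 ≤ γ → 0 ≤ A → 0 ≤ G₀ → (∀ x, ((S.mv x).card : ℝ) ≤ S.r x + β) → (∀ x, |F x| ≤ A) →
  (∀ x, Continuous fun t => G t x) → (∀ t x, 0 ≤ t → |G t x| ≤ G₀ * Real.exp (γ * t)) →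
  ∃ u : ℝ → X → ℝ, (∀ x, u 0 x = F x) ∧ (∀ x, ContinuousOn (fun t => u t x) (Ici 0)) ∧
    (∀ x t, 0 < t → HasDerivAt (fun t => u t x) (rhs S (u t) x + G t x) t) ∧
    ∀ x t, 0 ≤ t → |u t x| ≤ (A + G₀ * t) * Real.exp ((β + γ) * t)

/-! ### The heat kernel of `ℤ` -/

/-- The heat kernel: probability that the random walk with rate one to each neighbour is at `k` at time `t`. -/
noncomputable def hk (t : ℝ) (k : ℤ) : ℝ :=
  (2 * Real.pi)⁻¹ * ∫ θ in (-Real.pi)..Real.pi, Real.exp (-(2 * t * (1 - Real.cos θ))) * Real.cos (k * θ)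

/-- HK: the heat kernel by its Fourier integral. Hints: derivative under the integral, `2 cos θ cos kθ = cos (k+1)θ +
cos (k-1)θ`; `1 - cos θ ≥ 2 θ² / π²`, Gaussian integral; Bessel's inequality (Mathlib: `orthonormal_fourier`, or
Parseval) for `exp (-2t(1 - cos θ)) (e^{iθ} - 1)`, `|e^{iθ} - 1|² = 2 (1 - cos θ)`, `x e^{-4tx} ≤ e^{-2tx} / (2 e t)`. -/
def S_HK : Prop :=
  (∀ t k, HasDerivAt (fun s => hk s k) (hk t (k - 1) + hk t (k + 1) - 2 * hk t k) t) ∧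
  (∀ k, hk 0 k = if k = 0 then 1 else 0) ∧ (∀ t k, 0 ≤ t → |hk t k| ≤ 1) ∧ (∀ t k, hk t (-k) = hk t k) ∧
  ∃ C : ℝ, 0 < C ∧ ∀ t : ℝ, 0 ≤ t → (∀ k, hk t k ≤ C / √(1 + t)) ∧
    ∀ F : Finset ℤ, ∑ k ∈ F, (hk t (k + 1) - hk t k) ^ 2 ≤ C / ((1 + t) * √(1 + t))

/-- HM: mass and second moment (use MP with `X = ℤ`, two moves, `r = 2`; for the second claim `X = Finset ℤ`, the
translates of `F`, `w = ∑_F hk - 1`; for the third `w t x = 1 - ∑_{|k| ≤ m} hk t (k - x) - (x² + 2t)/M²`). -/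
def S_HM : Prop := ∀ t : ℝ, 0 ≤ t → (∀ k, 0 ≤ hk t k) ∧ (∀ F : Finset ℤ, ∑ k ∈ F, hk t k ≤ 1) ∧
  ∀ m : ℕ, 0 < m → 1 - 2 * t / (m : ℝ) ^ 2 ≤ ∑ k ∈ Finset.Icc (-(m : ℤ)) m, hk t k

/-- Solution of the linear equation `a' = a(k-1) + a(k+1)` with initial values `c`. -/
noncomputable def av (c : ℤ →₀ ℝ) (t : ℝ) (k : ℤ) : ℝ :=
  Real.exp (2 * t) * ∑ j ∈ c.support, c j * hk t (k - j)

/-- VV: the variance function. Existence from EX (`X = ℤ`, two moves, `r = 0`, source the square), `0 ≤ V` from MP,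
the sum from MP with `X = Finset ℤ` (translates of `F`), `w = ∑_F V - v`. -/
def S_VV : Prop := ∀ c : ℤ →₀ ℝ, ∃ V : ℝ → ℤ → ℝ, (∀ k, V 0 k = 0) ∧ (∀ t k, 0 ≤ t → 0 ≤ V t k) ∧
  (∀ k, ContinuousOn (fun t => V t k) (Ici 0)) ∧
  (∀ k t, 0 < t → HasDerivAt (fun t => V t k)
    (V t (k - 1) + V t (k + 1) + (av c t (k - 1) + av c t (k + 1)) ^ 2) t) ∧
  ∀ (v v' : ℝ → ℝ) (T : ℝ), 0 ≤ T → 0 ≤ v 0 → (∀ t ∈ Icc 0 T, HasDerivAt v (v' t) t) →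
    (∀ t ∈ Icc 0 T, ∀ F : Finset ℤ, 2 * v t + ∑ k ∈ F, (av c t (k - 1) + av c t (k + 1)) ^ 2 ≤ v' t) →
    ∀ F : Finset ℤ, ∑ k ∈ F, V T k ≤ v T

/-- AL: the exponential supersolution.

Proof. Let `hk t k ≤ C / √(1+t)`, `a_k = e^{2t} hk t k`, and let `B_k(t)` be the solution of `B' = B(k-1) + B(k+1)`,
`B_k(0) = 2^{-|k|}` (EX or a Fourier integral). By MP `0 ≤ a_k ≤ B_k`, `B_(k±1) ≤ 2 B_k`,
`B_k ≤ 3 C e^{2t}/√(1+t)` (compare with `∑_{|j| ≤ J} 2^{-|j|} a_(k-j) + 2^{-J} e^{2t}`, `J → ∞`).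
Put `κ(t) = 192 C e^{2t}/√(1+t)` (so `κ' ≥ 192 C e^{2t}/√(1+t)`), `λ = θ e^{-2T} √T`,
`α_k = λ a_k - λ² κ B_k`, `β = α_(k-1) + α_(k+1)`. Then `|β| ≤ 8 λ B_k ≤ 1`, `1 - e^{-β} ≥ β - β²`,
`β² ≤ 64 λ² B_k · 3 C e^{2t}/√(1+t) ≤ λ² κ' B_k`, `α_k' = β - λ² κ' B_k`. At `T`:
`α_k ≥ θ κ₀ - 576 C² θ²` if `hk T k ≥ κ₀/√T`. Take `θ = min (κ₀ / (1152 C²)) (1 / (192 C))`. -/
def S_AL : Prop := ∀ κ₀ : ℝ, 0 < κ₀ → ∃ θ : ℝ, 0 < θ ∧ ∀ T : ℝ, 1 ≤ T → ∃ α : ℝ → ℤ → ℝ,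
  (∀ k, ContinuousOn (fun t => α t k) (Icc 0 T)) ∧
  (∀ k, ∀ t ∈ Ioo 0 T, ∃ d, HasDerivAt (fun t => α t k) d t ∧
    d ≤ 1 - Real.exp (-(α t (k - 1) + α t (k + 1)))) ∧
  (∀ k, α 0 k ≤ if k = 0 then θ * Real.exp (-(2 * T)) * √T else 0) ∧
  ∀ k, κ₀ / √T ≤ hk T k → θ * κ₀ / 2 ≤ α T k

/-! ### Combinatorics and topology -/

/-- PER: averages over maximal chains of sets. Hints: for `|S| = k` the number of permutations `π` with
`{i | π i < k} = S` is `n! / binom(n, k)` (it does not depend on `S` by symmetry), so the mean over `π` of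
`F {i | π i < k}` is the mean of `F` over the sets of size `k`; `binom(n, k) / 2^n ≤ C/√(n+1)`. -/
def S_PER : Prop := ∃ C : ℝ, 0 < C ∧ ∀ (n : ℕ) (F : Finset (Fin n) → ℝ) (K : ℝ), (∀ S, 0 ≤ F S) →
  (∀ π : Equiv.Perm (Fin n),
    ∑ k ∈ Finset.range (n + 1), F (Finset.univ.filter fun i => ((π i : Fin n) : ℕ) < k) ≤ K) →
  (∑ S : Finset (Fin n), F S) / 2 ^ n ≤ C * K / √(n + 1)

/-- A monochromatic interval of the configuration `ξ`: a maximal set of consecutive sites that contains at least one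
occupied site and in which every site is white (`0`) or has one and the same colour (the sign of `ξ`). -/
def IsMono (ξ : ℤ → ℤ) (I : Set ℤ) : Prop :=
  Maximal (fun J : Set ℤ => J.OrdConnected ∧ ((∀ x ∈ J, 0 ≤ ξ x) ∨ ∀ x ∈ J, ξ x ≤ 0) ∧ ∃ x ∈ J, ξ x ≠ 0) I

/-- GEO: geometry of intervals. -/
def S_GEO : Prop := ∀ (ξ : ℤ → ℤ) (N L : ℕ), (∀ x : ℤ, |x| ≤ N → 0 < ξ 0 * ξ x) →
  (∃ x : ℤ, 0 < x ∧ x ≤ L ∧ ξ 0 * ξ x < 0) → (∃ x : ℤ, x < 0 ∧ -(L : ℤ) ≤ x ∧ ξ 0 * ξ x < 0) →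
  (∃ I, IsMono ξ I ∧ (0 : ℤ) ∈ I) ∧
    ∀ I, IsMono ξ I → (0 : ℤ) ∈ I → ((2 * N + 1 : ℕ) : ℕ∞) ≤ I.encard ∧ I.encard ≤ ((2 * L : ℕ) : ℕ∞)

/-- The set `E` depends only on the coordinates in `[-N, N]`. -/
def Loc (N : ℕ) (E : Set (ℤ → ℤ)) : Prop := ∀ ξ ξ' : ℤ → ℤ, (∀ x : ℤ, |x| ≤ N → ξ x = ξ' x) → (ξ ∈ E ↔ ξ' ∈ E)

/-- KOL: limits of probability measures on `ℤ → ℤ` (Kolmogorov's extension theorem for a countable product of
countable discrete spaces; Ionescu-Tulcea `Kernel.trajMeasure` is in Mathlib). For each `N` the restriction to `[-N, N]`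
of `m R` converges in total variation, so the limits are a consistent family of probability measures. -/
def S_KOL : Prop := ∀ (m : ℕ → Measure (ℤ → ℤ)) (δ : ℕ → ℕ → ℝ), (∀ R, IsProbabilityMeasure (m R)) →
  (∀ N, Summable (δ N)) → (∀ N R E, Loc N E → |(m (R + 1)).real E - (m R).real E| ≤ δ N R) →
  ∃ μ : Measure (ℤ → ℤ), IsProbabilityMeasure μ ∧
    ∀ N E, Loc N E → Tendsto (fun R => (m R).real E) atTop (𝓝 (μ.real E))

end Pool.Agent.D0H96.UR
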