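import Pool.Agent.D0H96.UR.Quad

/-!
Project UR: statements of the second group of modules. Available: `Ct` (chains: `Chain.Sol`, `Sol.le` = comparison with a
supersolution on an invariant set, `Sol.mono`, `Sol.unique`, `P_sol`), `Urn` (`UC` = the chain of the urn scheme, slots,
`TC ι` = coupled configurations, `gen_UC`, `gen_TC_eval`, `bl_mono`, `bl_sub`, `mem_smv`), `Tr` (`ptr`, `hasSum_ptr`,
`P_nonneg`, `P_le_one`), `Quad` (`quad` = second moments, `av_deriv`, `av_add`, `av_single`, `Lw`, `Nw`).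
-/

set_option autoImplicit false

open Filter Topology MeasureTheory Set

namespace Pool.Agent.D0H96.UR

open Chain

/-- Probability for the system started with balls on `[-R, R]` with fair coin colours. -/
noncomputable def pr (R : ℕ) (t : ℝ) (E : Set Cfg) : ℝ :=
  (∑ S ∈ (Finset.Icc (-(R : ℤ)) R).powerset, UC.P (ind E) t (ini R S)) / 2 ^ (2 * R + 1)

/-- NUM1: gradients. Use `quad` with `c x = single (x+1) 1 - single x 1` and the `V` of VV, the mean over the coins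
`∑_S (Lw a (ini R S))² / 2^(2R+1) = ∑_(k ∈ [-R,R]) a_k²`, `Nw V (ini R S) = ∑ V_k`, and for VV
`v = 8 C e^(4t)/((1+t) √(1+t))`, `v' = (4 - 3/(2(1+t))) v ≥ (5/2) v`, as
`∑_F (av(k-1) + av(k+1))² ≤ 4 e^(4t) C/((1+t) √(1+t))`. -/
def S_NUM1 : Prop := ∃ C₁ : ℝ, 0 < C₁ ∧ ∀ (R : ℕ) (T κ : ℝ) (X : Finset ℤ) (E : Set Cfg), 0 ≤ T → 0 ≤ κ →
  (∀ η ∈ E, 1 ≤ κ * ∑ x ∈ X, ((η (x + 1) : ℝ) - (η x : ℝ)) ^ 2) →
  pr R T E ≤ κ * (X.card * (C₁ * Real.exp (4 * T) / ((1 + T) * √(1 + T))))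

/-- NUM2: sums. `c = ∑_(x ∈ I) single x 1`, `av c t k = e^(2t) ∑_(x∈I) hk t (k - x)` is between `0` and `e^(2t)`,
`∑_F av ≤ |I| e^(2t)` (HM and the symmetry of `hk`), so `∑_F av² ≤ |I| e^(4t)`, `v = 2 |I| e^(4t)`. -/
def S_NUM2 : Prop := ∀ (R : ℕ) (T κ : ℝ) (I : Finset ℤ) (E : Set Cfg), 0 ≤ T → 0 ≤ κ →
  (∀ η ∈ E, 1 ≤ κ * (∑ x ∈ I, (η x : ℝ)) ^ 2) → pr R T E ≤ κ * (3 * I.card * Real.exp (4 * T))

/-- EXPB: the difference of two coupled configurations `x i ≤ x j` is small with exponentially small probability.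

Proof. `Sol.le` for `TC ι` on the invariant set `{x | x i ≤ x j}` (`bl_mono`) with
`g t x = exp (l ℓ - ∑_k (x j - x i)(k) α t (k - z))`: a slot `(k, m)` changes `x j - x i` only if
`x i k < m ≤ x j k`, and then by one ball at `k - 1` and one at `k + 1` (`bl_sub`), so
`gen g = g ∑_k (x j - x i)(k) (exp (-(α(k-1-z) + α(k+1-z))) - 1) ≤ ∂_t g`. -/
def S_EXPB : Prop := ∀ (ι : Type) [Fintype ι] (i j : ι) (T l ℓ : ℝ) (z : ℤ) (α : ℝ → ℤ → ℝ), 0 ≤ T →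
  (∀ k, ContinuousOn (fun t => α t k) (Icc 0 T)) →
  (∀ k, ∀ t ∈ Ioo 0 T, ∃ d, HasDerivAt (fun t => α t k) d t ∧
    d ≤ 1 - Real.exp (-(α t (k - 1) + α t (k + 1)))) →
  (∀ k, α 0 k ≤ if k = 0 then l else 0) → 0 ≤ l → 0 ≤ ℓ →
  ∀ x : ι → Cfg, x i ≤ x j →
    (TC ι).P (ind {y | ((y j z : ℝ) - (y i z : ℝ)) ≤ ℓ}) T x ≤
      Real.exp (l * ℓ - Lw (fun k => α T (k - z)) (x j - x i))

/-- DIF: the influence of one ball on a local event (the event depends on the sites in `[-N, N]`).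

Proof. `TC (Fin 2)` started from `(η, η + single j 1)`, invariant set `{x 0 ≤ x 1}`, marginals by `gen_TC_eval` and
`Sol.unique`; the difference of the indicators is at most `∑_(|x| ≤ N) (y 1 x - y 0 x)`, and this is dominated by the
solution `Lw A_t (y 1 - y 0)`, `A_t k = e^(2t) ∑_(|x| ≤ N) hk t (k - x)`, of the backward equation. -/
def S_DIF : Prop := ∀ (N : ℕ) (E : Set (ℤ → ℤ)) (T : ℝ) (j : ℤ) (η : Cfg), Loc N E → 0 ≤ T →
  |UC.P (ind {ξ | (⇑ξ : ℤ → ℤ) ∈ E}) T (η + Finsupp.single j 1) - UC.P (ind {ξ | (⇑ξ : ℤ → ℤ) ∈ E}) T η| ≤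
    Real.exp (2 * T) * ∑ x ∈ Finset.Icc (-(N : ℤ)) N, hk T (j - x)

/-- LAW: the law of the infinite system exists, by KOL (`m R` = the law of the system started on `[-R, R]`;
`ini (R+1) S'` differs from `ini R (S' ∩ [-R, R])` by one ball at `R + 1` and one at `-R - 1`; DIF; `∑_k hk T k ≤ 1`).
Also the probabilities `prob ptr` are the `pr`. -/
def S_LAW : Prop := (∀ (R : ℕ) (t : ℝ) (E : Set (ℤ → ℤ)), 0 ≤ t →
    prob ptr R t E = pr R t {ξ | (⇑ξ : ℤ → ℤ) ∈ E}) ∧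
  ∀ t : ℝ, 0 ≤ t → ∃ μ : Measure (ℤ → ℤ), IsLaw ptr t μ

end Pool.Agent.D0H96.UR
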