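import Pool.Agent.D0H96.UR.Urn

/-!
Project UR: the transition probabilities of the urn scheme.
-/

set_option autoImplicit false

open Filter Topology MeasureTheory Set

namespace Pool.Agent.D0H96.UR

open Chain

/-- Weight that controls the positions of the balls. -/
noncomputable def psi (η : Cfg) : ℝ := Nw (fun k => |(k : ℝ)| + 2) η

theorem psi_nonneg (η : Cfg) : 0 ≤ psi η := Nw_nonneg (fun k => by positivity) η

theorem psi_gen (η : Cfg) : UC.gen psi η ≤ 3 * psi η := by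
  have h1 : UC.gen psi η ≤ ∑ s ∈ smv η, (3 * (|(s.1 : ℝ)| + 2)) := by
    refine Finset.sum_le_sum fun s _ => ?_
    show psi (sact s η) - psi η ≤ _
    have h := Nw_sact (V := fun k => |(k : ℝ)| + 2) (fun k => by positivity) s η
    have h2 : |(((s.1 - 1 : ℤ)) : ℝ)| ≤ |(s.1 : ℝ)| + 1 := by
      push_cast
      have := abs_sub (s.1 : ℝ) 1
      rwa [abs_one] at this
    have h3 : |(((s.1 + 1 : ℤ)) : ℝ)| ≤ |(s.1 : ℝ)| + 1 := by
      push_cast
      have := abs_add_le (s.1 : ℝ) 1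
      rwa [abs_one] at this
    unfold psi
    have h4 := abs_nonneg (s.1 : ℝ)
    linarith
  refine h1.trans (le_of_eq ?_)
  rw [sum_smv η fun k => 3 * (|(k : ℝ)| + 2)]
  unfold psi Nw Finsupp.sum
  rw [Finset.mul_sum]
  exact Finset.sum_congr rfl fun k _ => by ring

theorem psi_finite (M : ℝ) : {η : Cfg | psi η ≤ M}.Finite := by
  obtain ⟨m, hm⟩ := exists_nat_ge M
  refine Set.Finite.subset (Finset.finite_toSet ((Finset.Icc (-(m : ℤ)) m).finsupp fun _ => Finset.Icc (-(m : ℤ)) m)) ?_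
  intro η hη
  have hη' : psi η ≤ m := le_trans hη hm
  have key : ∀ k ∈ η.support, |(η k : ℝ)| * (|(k : ℝ)| + 2) ≤ m := by
    intro k hk
    refine le_trans ?_ hη'
    unfold psi Nw Finsupp.sum
    exact Finset.single_le_sum (f := fun k => |(η k : ℝ)| * (|(k : ℝ)| + 2)) (fun k _ => by positivity) hk
  rw [Finset.mem_coe, Finset.mem_finsupp_iff]
  constructor
  · intro k hk
    have h1 := key k hk
    have h2 : (1 : ℝ) ≤ |(η k : ℝ)| := by
      have : (1 : ℤ) ≤ |η k| := Int.one_le_abs (Finsupp.mem_support_iff.1 hk)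
      exact_mod_cast this
    have h3 : |(k : ℝ)| ≤ m := by nlinarith [abs_nonneg (k : ℝ)]
    have h4 : |k| ≤ (m : ℤ) := by exact_mod_cast h3
    rw [Finset.mem_Icc]
    exact abs_le.1 h4
  · intro k hk
    by_cases hk' : k ∈ η.support
    · have h1 := key k hk'
      have h3 : |(η k : ℝ)| ≤ m := by nlinarith [abs_nonneg (k : ℝ), abs_nonneg (η k : ℝ)]
      have h4 : |η k| ≤ (m : ℤ) := by exact_mod_cast h3
      rw [Finset.mem_Icc]
      exact abs_le.1 h4
    · rw [Finsupp.notMem_support_iff.1 hk', Finset.mem_Icc]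
      constructor <;> simp

/-- The probability of large configurations. -/
theorem psi_tail (hMP : S_MP) (hEX : S_EX) {M : ℝ} (hM : 0 < M) (η : Cfg) {t : ℝ} (ht : 0 ≤ t) :
    UC.P (ind {ξ | psi ξ ≤ M}ᶜ) t η ≤ Real.exp (3 * t) * psi η / M := by
  refine (P_sol hEX UC (ind_bdd _)).le hMP (I := univ) (fun _ _ _ _ => mem_univ _) ht (B := 0)
    (g := fun t η => Real.exp (3 * t) * psi η / M) (fun η _ => ?_) (fun η _ s _ => ?_) (fun η _ s _ => ?_)
    (fun η _ => ?_) η (mem_univ _)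
  · exact Continuous.continuousOn (by fun_prop)
  · refine ⟨3 * Real.exp (3 * s) * psi η / M, ?_, ?_⟩
    · have h1 : HasDerivAt (fun t : ℝ => Real.exp (3 * t)) (Real.exp (3 * s) * 3) s := by
        have := ((hasDerivAt_id s).const_mul 3).exp
        simpa using this
      have h2 := (h1.mul_const (psi η)).div_const M
      have e : 3 * Real.exp (3 * s) * psi η / M = Real.exp (3 * s) * 3 * psi η / M := by ring
      rw [e]
      exact h2
    · have e : UC.gen (fun η => Real.exp (3 * s) * psi η / M) η = Real.exp (3 * s) / M * UC.gen psi η := by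
        unfold Chain.gen
        rw [Finset.mul_sum]
        exact Finset.sum_congr rfl fun _ _ => by ring
      rw [e]
      have h := mul_le_mul_of_nonneg_left (psi_gen η) (show 0 ≤ Real.exp (3 * s) / M by positivity)
      refine h.trans (le_of_eq ?_)
      ring
  · exact div_nonneg (mul_nonneg (Real.exp_pos _).le (psi_nonneg η)) hM.le
  · simp only [mul_zero, Real.exp_zero, one_mul]
    by_cases h : psi η ≤ M
    · rw [ind_of_notMem (E := {ξ : Cfg | psi ξ ≤ M}ᶜ) (fun h' => h' h)]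
      exact div_nonneg (psi_nonneg η) hM.le
    · rw [ind_of_mem (E := {ξ : Cfg | psi ξ ≤ M}ᶜ) h, le_div_iff₀ hM, one_mul]
      push Not at h
      exact h.le

/-- The transition probabilities. -/
noncomputable def ptr (t : ℝ) (η ξ : Cfg) : ℝ := UC.P (ind {ξ}) t η

theorem P_nonneg (hMP : S_MP) (hEX : S_EX) {X σ : Type} (C : Chain X σ) (E : Set X) {t : ℝ} (ht : 0 ≤ t) (x : X) :
    0 ≤ C.P (ind E) t x :=
  (Sol.const (C := C) 0).mono hMP (P_sol hEX C (ind_bdd E)) (I := univ) (fun _ _ _ _ => mem_univ _)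
    (fun x _ => ind_nonneg E x) (mem_univ x) ht

theorem P_le_one (hMP : S_MP) (hEX : S_EX) {X σ : Type} (C : Chain X σ) (E : Set X) {t : ℝ} (ht : 0 ≤ t) (x : X) :
    C.P (ind E) t x ≤ 1 :=
  (P_sol hEX C (ind_bdd E)).mono hMP (Sol.const (C := C) 1) (I := univ) (fun _ _ _ _ => mem_univ _)
    (fun x _ => ind_le_one E x) (mem_univ x) ht

theorem sum_ptr (hMP : S_MP) (hEX : S_EX) (E : Set Cfg) {t : ℝ} (ht : 0 ≤ t) (η : Cfg) (A : Finset Cfg) :
    ∑ ξ ∈ A, ind E ξ * ptr t η ξ = UC.P (ind (E ∩ A)) t η := by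
  have h1 : UC.Sol (fun ζ => ∑ ξ ∈ A, ind E ξ * ind {ξ} ζ) (fun t ζ => ∑ ξ ∈ A, ind E ξ * ptr t ζ ξ) :=
    Sol.sum A fun ξ _ => (P_sol hEX UC (ind_bdd _)).smul _
  have e : (fun ζ => ∑ ξ ∈ A, ind E ξ * ind {ξ} ζ) = ind (E ∩ (A : Set Cfg)) := by
    funext ζ
    by_cases hA : ζ ∈ A
    · rw [Finset.sum_eq_single ζ (fun b _ hb => by rw [ind_of_notMem (E := {b}) (fun h => hb h.symm), mul_zero])
        (fun h => (h hA).elim), ind_of_mem (E := {ζ}) rfl, mul_one]
      by_cases hE : ζ ∈ E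
      · rw [ind_of_mem hE, ind_of_mem (E := E ∩ (A : Set Cfg)) ⟨hE, hA⟩]
      · rw [ind_of_notMem hE, ind_of_notMem (E := E ∩ (A : Set Cfg)) fun h => hE h.1]
    · rw [ind_of_notMem (E := E ∩ (A : Set Cfg)) fun h => hA h.2]
      refine Finset.sum_eq_zero fun b hb => ?_
      rw [ind_of_notMem (E := {b}) (fun h => hA (by rw [mem_singleton_iff.1 h]; exact hb)), mul_zero]
  rw [e] at h1
  exact h1.unique hMP (P_sol hEX UC (ind_bdd _)) ht η

theorem hasSum_ptr (hMP : S_MP) (hEX : S_EX) (E : Set Cfg) {t : ℝ} (ht : 0 ≤ t) (η : Cfg) :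
    HasSum (fun ξ => ind E ξ * ptr t η ξ) (UC.P (ind E) t η) := by
  unfold HasSum
  rw [SummationFilter.unconditional_filter, Metric.tendsto_atTop]
  intro ε hε
  obtain ⟨M, hM⟩ : ∃ M : ℝ, M = Real.exp (3 * t) * (psi η + 1) / ε + 1 := ⟨_, rfl⟩
  have hM0 : 0 < M := by
    rw [hM]
    have := psi_nonneg η
    positivity
  refine ⟨(psi_finite M).toFinset, fun A hA => ?_⟩
  rw [sum_ptr hMP hEX E ht η A, Real.dist_eq, abs_sub_comm]
  have hsub : ∀ ζ, ind (E ∩ (A : Set Cfg)) ζ ≤ ind E ζ := by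
    intro ζ
    by_cases h : ζ ∈ E ∩ (A : Set Cfg)
    · rw [ind_of_mem h, ind_of_mem h.1]
    · rw [ind_of_notMem h]
      exact ind_nonneg _ _
  have h1 : UC.P (ind (E ∩ (A : Set Cfg))) t η ≤ UC.P (ind E) t η :=
    (P_sol hEX UC (ind_bdd _)).mono hMP (P_sol hEX UC (ind_bdd _)) (I := univ) (fun _ _ _ _ => mem_univ _)
      (fun x _ => hsub x) (mem_univ η) ht
  have h2 : UC.P (ind E) t η ≤ UC.P (ind (E ∩ (A : Set Cfg))) t η + UC.P (ind {ξ | psi ξ ≤ M}ᶜ) t η := by
    refine (P_sol hEX UC (ind_bdd _)).mono hMP ((P_sol hEX UC (ind_bdd (E ∩ (A : Set Cfg)))).add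
      (P_sol hEX UC (ind_bdd {ξ | psi ξ ≤ M}ᶜ))) (I := univ) (fun _ _ _ _ => mem_univ _) (fun ζ _ => ?_)
      (mem_univ η) ht
    by_cases h : ζ ∈ E
    · by_cases hA' : ζ ∈ A
      · rw [ind_of_mem h, ind_of_mem (show ζ ∈ E ∩ (A : Set Cfg) from ⟨h, hA'⟩)]
        have := ind_nonneg {ξ | psi ξ ≤ M}ᶜ ζ
        linarith
      · have h3 : ζ ∈ {ξ : Cfg | psi ξ ≤ M}ᶜ := by
          intro h4
          exact hA' (hA ((psi_finite M).mem_toFinset.2 h4))
        rw [ind_of_mem h, ind_of_mem h3]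
        have := ind_nonneg (E ∩ (A : Set Cfg)) ζ
        linarith
    · rw [ind_of_notMem h]
      have := ind_nonneg (E ∩ (A : Set Cfg)) ζ
      have := ind_nonneg {ξ | psi ξ ≤ M}ᶜ ζ
      linarith
  have h3 := psi_tail hMP hEX hM0 η ht
  have h4 : Real.exp (3 * t) * psi η / M < ε := by
    rw [div_lt_iff₀ hM0, hM, mul_add, mul_div_cancel₀ _ hε.ne']
    have := Real.exp_pos (3 * t)
    nlinarith
  rw [abs_of_nonneg (by linarith)]
  linarith

theorem isUrn_ptr (hMP : S_MP) (hEX : S_EX) : IsUrn ptr where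
  nonneg := fun t η ξ ht => P_nonneg hMP hEX UC _ ht η
  total := fun t η ht => by
    have h := hasSum_ptr hMP hEX univ ht η
    have e : UC.P (ind univ) t η = 1 := by
      have h1 : UC.Sol (ind (univ : Set Cfg)) (UC.P (ind univ)) := P_sol hEX UC (ind_bdd _)
      have e2 : ind (univ : Set Cfg) = fun _ => 1 := by
        funext x
        exact ind_of_mem (mem_univ x)
      rw [e2] at h1
      have := h1.unique hMP (Sol.const (C := UC) 1) ht η
      rw [e2]
      exact this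
    rw [e] at h
    have e3 : (fun ξ => ind (univ : Set Cfg) ξ * ptr t η ξ) = fun ξ => ptr t η ξ := by
      funext ξ
      rw [ind_of_mem (mem_univ ξ), one_mul]
    rw [e3] at h
    exact h
  zero := fun η ξ => by
    have h := (P_sol hEX UC (ind_bdd {ξ})).zero η
    show UC.P (ind {ξ}) 0 η = _
    rw [h]
    by_cases h1 : η = ξ
    · rw [if_pos h1, ind_of_mem (E := {ξ}) h1]
    · rw [if_neg h1, ind_of_notMem (E := {ξ}) h1]
  cont := fun η ξ => (P_sol hEX UC (ind_bdd {ξ})).cont η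
  backward := fun t η ξ ht => by
    have h := (P_sol hEX UC (ind_bdd {ξ})).deriv η t ht
    rw [gen_UC] at h
    exact h

theorem isUrn_unique (hMP : S_MP) (hEX : S_EX) {q : ℝ → Cfg → Cfg → ℝ} (hq : IsUrn q) {t : ℝ} (ht : 0 ≤ t)
    (η ξ : Cfg) : q t η ξ = ptr t η ξ := by
  have h1 : UC.Sol (ind {ξ}) (fun t η => q t η ξ) := by
    refine ⟨fun η => ?_, fun η => hq.cont η ξ, fun η t ht => ?_, ⟨1, fun η t ht => ?_⟩⟩
    · show q 0 η ξ = _
      rw [hq.zero]
      by_cases h1 : η = ξ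
      · rw [if_pos h1, ind_of_mem (E := {ξ}) h1]
      · rw [if_neg h1, ind_of_notMem (E := {ξ}) h1]
    · rw [gen_UC]
      exact hq.backward t η ξ ht
    · rw [abs_of_nonneg (hq.nonneg t η ξ ht)]
      exact le_hasSum (hq.total t η ht) ξ fun ζ _ => hq.nonneg t η ζ ht
  exact h1.unique hMP (P_sol hEX UC (ind_bdd {ξ})) ht η

end Pool.Agent.D0H96.UR
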