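import Pool.Agent.D0H96.UR.Def
import Pool.Agent.D0H96.UR.Ct

/-!
Project UR: the chain of the urn scheme in the representation by slots. The slot `i` of the site `k` is occupied by a
red ball if `1 ≤ i ≤ η k`, by a blue ball if `η k < i ≤ 0`.
-/

set_option autoImplicit false

open Filter Topology MeasureTheory Set

namespace Pool.Agent.D0H96.UR

/-- The colour of the slot `i` if the height is `y`. -/
def bl (i y : ℤ) : ℤ := (if i ≤ y then 1 else 0) - (if i ≤ 0 then 1 else 0)

theorem bl_mono {i y y' : ℤ} (h : y ≤ y') : bl i y ≤ bl i y' := by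
  unfold bl
  split_ifs <;> omega

theorem bl_sub {i y y' : ℤ} (h : y ≤ y') : bl i y' - bl i y = if y < i ∧ i ≤ y' then 1 else 0 := by
  unfold bl
  split_ifs <;> omega

theorem bl_abs (i y : ℤ) : |bl i y| ≤ 1 := by
  unfold bl
  split_ifs <;> simp

/-- The occupied slots. -/
noncomputable def occ (y : ℤ) : Finset ℤ := Finset.Ioc (min y 0) (max y 0)

theorem mem_occ {i y : ℤ} : i ∈ occ y ↔ bl i y ≠ 0 := by
  unfold occ bl
  rw [Finset.mem_Ioc]
  rcases le_total y 0 with h | h
  · rw [min_eq_left h, max_eq_right h]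
    split_ifs <;> simp_all <;> omega
  · rw [min_eq_right h, max_eq_left h]
    split_ifs <;> simp_all <;> omega

theorem bl_occ {i y : ℤ} (h : i ∈ occ y) : bl i y = y.sign := by
  unfold occ at h
  unfold bl
  rw [Finset.mem_Ioc] at h
  rcases lt_trichotomy y 0 with h1 | h1 | h1
  · rw [min_eq_left h1.le, max_eq_right h1.le] at h
    rw [Int.sign_eq_neg_one_of_neg h1, if_neg (by omega), if_pos (by omega)]
    rfl
  · subst h1
    simp at h
    omega
  · rw [min_eq_right h1.le, max_eq_left h1.le] at h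
    rw [Int.sign_eq_one_of_pos h1, if_pos (by omega), if_neg (by omega)]
    rfl

theorem card_occ (y : ℤ) : ((occ y).card : ℝ) = |(y : ℝ)| := by
  unfold occ
  rw [Int.card_Ioc]
  have h : ((max y 0 - min y 0).toNat : ℤ) = |y| := by
    rw [Int.toNat_of_nonneg (by omega)]
    rcases le_total y 0 with h | h
    · rw [abs_of_nonpos h]; omega
    · rw [abs_of_nonneg h]; omega
  have h2 := congrArg (fun z : ℤ => (z : ℝ)) h
  push_cast at h2
  rw [← h2]

abbrev Slot := (_ : ℤ) × ℤ

/-- The effect of a nucleation at the slot `s`. -/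
noncomputable def sact (s : Slot) (η : Cfg) : Cfg :=
  η + Finsupp.single (s.1 - 1) (bl s.2 (η s.1)) + Finsupp.single (s.1 + 1) (bl s.2 (η s.1))

/-- The occupied slots of a configuration. -/
noncomputable def smv (η : Cfg) : Finset Slot := η.support.sigma fun k => occ (η k)

theorem mem_smv {s : Slot} {η : Cfg} : s ∈ smv η ↔ bl s.2 (η s.1) ≠ 0 := by
  unfold smv
  rw [Finset.mem_sigma, mem_occ, Finsupp.mem_support_iff]
  constructor
  · exact fun h => h.2
  · intro h
    refine ⟨fun h0 => h ?_, h⟩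
    rw [h0]
    unfold bl
    simp

theorem sact_of_notMem {s : Slot} {η : Cfg} (h : s ∉ smv η) : sact s η = η := by
  rw [mem_smv, not_not] at h
  unfold sact
  rw [h]
  simp

theorem sact_of_mem {s : Slot} {η : Cfg} (h : s ∈ smv η) : sact s η = nuc s.1 η := by
  unfold smv at h
  rw [Finset.mem_sigma] at h
  unfold sact nuc
  rw [bl_occ h.2]

/-- Sum of `|η k| V k`. -/
noncomputable def Nw (V : ℤ → ℝ) (η : Cfg) : ℝ := η.sum fun k y => |(y : ℝ)| * V k

/-- Sum of `η k a k`. -/
noncomputable def Lw (a : ℤ → ℝ) (η : Cfg) : ℝ := η.sum fun k y => (y : ℝ) * a k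

theorem Lw_add (a : ℤ → ℝ) (η η' : Cfg) : Lw a (η + η') = Lw a η + Lw a η' := by
  unfold Lw
  exact Finsupp.sum_add_index' (fun k => by simp) (fun k y y' => by push_cast; ring)

theorem Lw_single (a : ℤ → ℝ) (j c : ℤ) : Lw a (Finsupp.single j c) = c * a j := by
  unfold Lw
  exact Finsupp.sum_single_index (by simp)

theorem Lw_sub (a : ℤ → ℝ) (η η' : Cfg) : Lw a (η - η') = Lw a η - Lw a η' := by
  have h := Lw_add a (η - η') η'
  rw [sub_add_cancel] at h
  linarith

theorem Nw_eq {V : ℤ → ℝ} {η : Cfg} {s : Finset ℤ} (h : η.support ⊆ s) : Nw V η = ∑ k ∈ s, |(η k : ℝ)| * V k := by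
  unfold Nw
  exact Finsupp.sum_of_support_subset _ h _ (fun k _ => by simp)

theorem Nw_nonneg {V : ℤ → ℝ} (hV : ∀ k, 0 ≤ V k) (η : Cfg) : 0 ≤ Nw V η := by
  unfold Nw Finsupp.sum
  exact Finset.sum_nonneg fun k _ => mul_nonneg (abs_nonneg _) (hV k)

theorem Nw_add {V : ℤ → ℝ} (hV : ∀ k, 0 ≤ V k) (η η' : Cfg) : Nw V (η + η') ≤ Nw V η + Nw V η' := by
  classical
  have h1 : (η + η').support ⊆ η.support ∪ η'.support := Finsupp.support_add
  rw [Nw_eq h1, Nw_eq (Finset.subset_union_left : η.support ⊆ η.support ∪ η'.support),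
    Nw_eq (Finset.subset_union_right : η'.support ⊆ η.support ∪ η'.support), ← Finset.sum_add_distrib]
  refine Finset.sum_le_sum fun k _ => ?_
  rw [← add_mul]
  refine mul_le_mul_of_nonneg_right ?_ (hV k)
  rw [Finsupp.add_apply]
  push_cast
  exact abs_add_le _ _

theorem Nw_single (V : ℤ → ℝ) (j c : ℤ) : Nw V (Finsupp.single j c) = |(c : ℝ)| * V j := by
  unfold Nw
  exact Finsupp.sum_single_index (by simp)

theorem Nw_sact {V : ℤ → ℝ} (hV : ∀ k, 0 ≤ V k) (s : Slot) (η : Cfg) :
    Nw V (sact s η) ≤ Nw V η + (V (s.1 - 1) + V (s.1 + 1)) := by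
  unfold sact
  have h1 := Nw_add hV (η + Finsupp.single (s.1 - 1) (bl s.2 (η s.1))) (Finsupp.single (s.1 + 1) (bl s.2 (η s.1)))
  have h2 := Nw_add hV η (Finsupp.single (s.1 - 1) (bl s.2 (η s.1)))
  rw [Nw_single] at h1 h2
  have h3 : |(bl s.2 (η s.1) : ℝ)| ≤ 1 := by exact_mod_cast bl_abs s.2 (η s.1)
  have h4 := mul_le_mul_of_nonneg_right h3 (hV (s.1 - 1))
  have h5 := mul_le_mul_of_nonneg_right h3 (hV (s.1 + 1))
  linarith

theorem sum_smv (η : Cfg) (f : ℤ → ℝ) : ∑ s ∈ smv η, f s.1 = η.sum fun k y => |(y : ℝ)| * f k := by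
  unfold smv
  rw [Finset.sum_sigma]
  unfold Finsupp.sum
  refine Finset.sum_congr rfl fun k _ => ?_
  show ∑ _i ∈ occ (η k), f k = |(η k : ℝ)| * f k
  rw [Finset.sum_const, nsmul_eq_mul, card_occ]

theorem card_smv (η : Cfg) : ((smv η).card : ℝ) = Nw (fun _ => 1) η := by
  have h := sum_smv η (fun _ => 1)
  rw [Finset.sum_const, nsmul_eq_mul, mul_one] at h
  rw [h]
  rfl

/-- The chain. -/
noncomputable def UC : Chain Cfg Slot where
  act := sact
  mv := smv
  phi := Nw fun _ => 1
  b := 2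
  b0 := by norm_num
  phi0 := Nw_nonneg fun _ => zero_le_one
  card := fun η => (card_smv η).le
  step := fun η s _ => by
    have := Nw_sact (V := fun _ => 1) (fun _ => zero_le_one) s η
    linarith

theorem gen_UC (F : Cfg → ℝ) (η : Cfg) : UC.gen F η = ∑ k ∈ η.support, |(η k : ℝ)| * (F (nuc k η) - F η) := by
  unfold Chain.gen
  show ∑ s ∈ smv η, (F (sact s η) - F η) = _
  rw [Finset.sum_congr rfl fun s hs => by rw [sact_of_mem hs]]
  exact sum_smv η fun k => F (nuc k η) - F η

/-- The chain of several coupled configurations: all of them use the same clocks at the slots. -/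
noncomputable def TC (ι : Type) [Fintype ι] : Chain (ι → Cfg) Slot where
  act := fun s x i => sact s (x i)
  mv := fun x => Finset.univ.biUnion fun i => smv (x i)
  phi := fun x => ∑ i, Nw (fun _ => 1) (x i)
  b := Fintype.card ι * 2
  b0 := by positivity
  phi0 := fun x => Finset.sum_nonneg fun i _ => Nw_nonneg (fun _ => zero_le_one) _
  card := fun x => by
    have h := Finset.card_biUnion_le (s := (Finset.univ : Finset ι)) (t := fun i => smv (x i))
    have h2 : ((Finset.univ.biUnion fun i => smv (x i)).card : ℝ) ≤ ∑ i, ((smv (x i)).card : ℝ) := by exact_mod_cast h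
    refine h2.trans (Finset.sum_le_sum fun i _ => (card_smv _).le)
  step := fun x s _ => by
    have h : ∑ i, Nw (fun _ => 1) (sact s (x i)) ≤ ∑ i : ι, (Nw (fun _ => 1) (x i) + 2) :=
      Finset.sum_le_sum fun i _ => by
        have := Nw_sact (V := fun _ => 1) (fun _ => zero_le_one) s (x i)
        linarith
    rw [Finset.sum_add_distrib, Finset.sum_const, nsmul_eq_mul, Finset.card_univ] at h
    exact h

theorem gen_TC_eval {ι : Type} [Fintype ι] (i : ι) (f : Cfg → ℝ) (x : ι → Cfg) :
    (TC ι).gen (fun y => f (y i)) x = UC.gen f (x i) := by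
  unfold Chain.gen
  show ∑ s ∈ Finset.univ.biUnion (fun i => smv (x i)), (f (sact s (x i)) - f (x i)) =
    ∑ s ∈ smv (x i), (f (sact s (x i)) - f (x i))
  refine (Finset.sum_subset (Finset.subset_biUnion_of_mem (fun i => smv (x i)) (Finset.mem_univ i)) ?_).symm
  intro s _ hs
  rw [sact_of_notMem hs, sub_self]

end Pool.Agent.D0H96.UR
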